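import Pool.Agent.Helper83.MM.Tog

set_option autoImplicit false

/-!
# Canonical pairs: asymptotic locality of the reflection
-/

open MeasureTheory ProbabilityTheory Filter Topology
open scoped symmDiff

namespace Pool.Agent.Helper83.MMS

open Pool.Agent.Helper60.TJ Pool.Agent.Helper61.MM

variable {lam : Measure ℝ} {Cn : WT → Set (Ed → Bool)} {Q : Measure XX}

theorem ae_CW (h : HC lam Cn Q) : ∀ᵐ y ∂(nuM Q), CW y := by
  filter_upwards [nu_ae_of h.one, h.isW.ae_GY] with y h1 h2 v hv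
  exact h1.2.2 0 v ⟨y.2, h2.2.1⟩ hv

theorem tendsto_Far (h : IsW lam Q) (F : Finset Ed) :
    Tendsto (fun n => nuM Q (Far F n)) atTop (𝓝 0) := by
  have hfin : IsFiniteMeasure (nuM Q) := ⟨h.nu_lt⟩
  have hanti : Antitone fun n => Far F n := by
    rintro n m hnm y ⟨j, hj, hjF⟩
    have : (n : ℤ) ≤ m := by exact_mod_cast hnm
    exact ⟨j, this.trans hj, hjF⟩
  have h1 := tendsto_measure_iInter_atTop (μ := nuM Q) (s := fun n => Far F n)
    (fun n => (measurableSet_Far F n).nullMeasurableSet) hanti ⟨0, measure_ne_top _ _⟩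
  have h2 : nuM Q (⋂ n, Far F n) = 0 := by
    refine measure_mono_null (t := {y | ¬ GY y}) ?_ h.ae_GY
    intro y hy hGY
    have hinj := wedgez_injective hGY
    have hfinite : {j : ℤ | wedgez y j ∈ F}.Finite := by
      refine Set.Finite.of_finite_image (f := wedgez y) ?_ hinj.injOn
      refine (F.finite_toSet).subset ?_
      rintro e ⟨j, hj, rfl⟩
      exact hj
    obtain ⟨M, hM⟩ := (hfinite.image fun j => |j|).bddAbove
    have h3 := Set.mem_iInter.1 hy (M.toNat + 1)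
    obtain ⟨j, hj, hjF⟩ := h3
    have h4 := hM ⟨j, hjF, rfl⟩
    simp only at h4
    push_cast at hj
    omega
  rw [h2] at h1
  exact h1

theorem local_pos {F : Finset Ed} {B : Set YY} (hB : LocOn F B) {y : YY} (hy : GY y) (hc : CW y)
    {k : ℕ} (hk : Tz k y ∉ Far F k) : (Tz k (tog y) ∈ B ↔ sw (Tz k y) ∈ B) := by
  have hy' : GY (tog y) := (GY_tog y).2 hy
  have e1 : (Tz k (tog y)).1 = shX (posz y k) (tog y).1 := by
    rw [Tz_fst hy', posz_congr (wl_tog y) rfl]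
  have e2 : (Tz k y).1 = shX (posz y k) y.1 := Tz_fst hy k
  have key : ∀ e ∈ F, hp y (e.1 + posz y k, e.2) = wl y.1 (e.1 + posz y k, e.2) := by
    intro e he
    cases hw : wl y.1 (e.1 + posz y k, e.2) with
    | false => exact hp_of_not hy hw
    | true =>
      obtain ⟨l, hl⟩ := exists_wedgez hy hc hw
      rw [hl, hp_wedgez hy, decide_eq_true_iff]
      by_contra hneg
      apply hk
      refine ⟨l - k, ?_, ?_⟩
      · rw [abs_of_neg (by omega)]; omega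
      · rw [wedgez_Tz hy, add_sub_cancel, ← hl]
        simpa using he
  apply hB
  · exact Tz_snd_congr (wl_tog y) rfl k
  · intro e he
    have h1 := key e he
    refine ⟨?_, ?_, ?_⟩
    · show (Tz k (tog y)).1.1 e = (Tz k y).1.1 e
      rw [e1, e2]
      rfl
    · show (Tz k (tog y)).1.2.1 e = (Tz k y).1.2.2 e
      rw [e1, e2]
      show xor (y.1.2.1 (e.1 + posz y k, e.2)) (hp y (e.1 + posz y k, e.2))
        = y.1.2.2 (e.1 + posz y k, e.2)
      rw [h1]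
      show xor (y.1.2.1 (e.1 + posz y k, e.2)) (xor (y.1.2.1 (e.1 + posz y k, e.2))
        (y.1.2.2 (e.1 + posz y k, e.2))) = _
      cases y.1.2.1 (e.1 + posz y k, e.2) <;> cases y.1.2.2 (e.1 + posz y k, e.2) <;> rfl
    · show (Tz k (tog y)).1.2.2 e = (Tz k y).1.2.1 e
      rw [e1, e2]
      show xor (y.1.2.2 (e.1 + posz y k, e.2)) (hp y (e.1 + posz y k, e.2))
        = y.1.2.1 (e.1 + posz y k, e.2)
      rw [h1]
      show xor (y.1.2.2 (e.1 + posz y k, e.2)) (xor (y.1.2.1 (e.1 + posz y k, e.2))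
        (y.1.2.2 (e.1 + posz y k, e.2))) = _
      cases y.1.2.1 (e.1 + posz y k, e.2) <;> cases y.1.2.2 (e.1 + posz y k, e.2) <;> rfl

theorem local_neg {F : Finset Ed} {B : Set YY} (hB : LocOn F B) {y : YY} (hy : GY y)
    {k : ℕ} (hk : Tz (-(k : ℤ)) y ∉ Far F k) :
    (Tz (-(k : ℤ)) (tog y) ∈ B ↔ Tz (-(k : ℤ)) y ∈ B) := by
  have hy' : GY (tog y) := (GY_tog y).2 hy
  have e1 : (Tz (-(k : ℤ)) (tog y)).1 = shX (posz y (-(k : ℤ))) (tog y).1 := by
    rw [Tz_fst hy', posz_congr (wl_tog y) rfl]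
  have e2 : (Tz (-(k : ℤ)) y).1 = shX (posz y (-(k : ℤ))) y.1 := Tz_fst hy _
  set u := posz y (-(k : ℤ)) with hu
  have key : ∀ e ∈ F, hp y (e.1 + u, e.2) = false := by
    intro e he
    cases hw : hp y (e.1 + u, e.2) with
    | false => rfl
    | true =>
      exfalso
      obtain ⟨l, hl⟩ := hp_true.1 hw
      rw [← wedgez_natCast hy] at hl
      apply hk
      refine ⟨(l : ℤ) + k, ?_, ?_⟩
      · rw [abs_of_nonneg (by positivity)]; omega
      · rw [wedgez_Tz hy]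
        have : (-(k : ℤ) + ((l : ℤ) + k)) = l := by ring
        rw [this, ← hl, ← hu]
        simpa using he
  apply hB
  · exact Tz_snd_congr (wl_tog y) rfl _
  · intro e he
    have h1 := key e he
    refine ⟨?_, ?_, ?_⟩
    · show (Tz (-(k : ℤ)) (tog y)).1.1 e = (Tz (-(k : ℤ)) y).1.1 e
      rw [e1, e2]
      rfl
    · show (Tz (-(k : ℤ)) (tog y)).1.2.1 e = (Tz (-(k : ℤ)) y).1.2.1 e
      rw [e1, e2]
      show xor (y.1.2.1 (e.1 + u, e.2)) (hp y (e.1 + u, e.2)) = y.1.2.1 (e.1 + u, e.2)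
      rw [h1, Bool.xor_false]
    · show (Tz (-(k : ℤ)) (tog y)).1.2.2 e = (Tz (-(k : ℤ)) y).1.2.2 e
      rw [e1, e2]
      show xor (y.1.2.2 (e.1 + u, e.2)) (hp y (e.1 + u, e.2)) = y.1.2.2 (e.1 + u, e.2)
      rw [h1, Bool.xor_false]

/-! ### exchange of the two T-joins -/

/-- exchange -/
def swp (p : XX) : XX := (p.1, p.2.2, p.2.1)

theorem measurable_swp : Measurable swp :=
  measurable_fst.prodMk ((measurable_snd.comp measurable_snd).prodMk
    (measurable_fst.comp measurable_snd))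

theorem wl_swp (p : XX) : wl (swp p) = wl p := bx_comm _ _

theorem ctC_swp (D : Set XX) (b : WT) : ctC Cn (swp ⁻¹' D) b = ctC Cn D b := by
  unfold ctC
  congr 1
  have h1 : {q : (Ed → Bool) × (Ed → Bool) | q.1 ∈ Cn b ∧ q.2 ∈ Cn b ∧ q.1 ≠ q.2 ∧
      (b.1, q.1, q.2) ∈ swp ⁻¹' D} = Prod.swap '' {q : (Ed → Bool) × (Ed → Bool) | q.1 ∈ Cn b ∧
      q.2 ∈ Cn b ∧ q.1 ≠ q.2 ∧ (b.1, q.1, q.2) ∈ D} := by
    ext ⟨x, y⟩
    simp only [Set.mem_ofPred_eq, Set.mem_preimage, Set.mem_image, Prod.exists, Prod.swap_prod_mk,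
      Prod.mk.injEq, swp]
    constructor
    · rintro ⟨h1, h2, h3, h4⟩
      exact ⟨y, x, ⟨h2, h1, h3.symm, h4⟩, rfl, rfl⟩
    · rintro ⟨b', a', ⟨h1, h2, h3, h4⟩, rfl, rfl⟩
      exact ⟨h2, h1, h3.symm, h4⟩
  rw [h1, Set.ncard_image_of_injective _ Prod.swap_injective]

theorem Q_swp (h : HC lam Cn Q) {D : Set XX} (hD : MeasurableSet D) : Q (swp ⁻¹' D) = Q D := by
  obtain ⟨c, hc, -, hcnt⟩ := h.cnt
  rw [hcnt _ hD, hcnt _ (measurable_swp hD)]
  simp_rw [ctC_swp]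

theorem mp_sw (h : HC lam Cn Q) : MeasurePreserving sw (nuM Q) (nuM Q) := by
  refine ⟨measurable_sw, ?_⟩
  ext A hA
  rw [Measure.map_apply measurable_sw hA, nu_eq Q (measurable_sw hA), nu_eq Q hA]
  refine Finset.sum_congr rfl fun d _ => ?_
  rw [← Q_swp h (slice hA)]
  congr 1
  ext p
  simp only [Set.mem_ofPred_eq, Set.mem_preimage, wl_swp]
  exact Iff.rfl

/-! ### the limit -/

private theorem core [IsProbabilityMeasure lam] (h : HC lam Cn Q)
    {T : ℕ → YY → YY} (hT : ∀ k, MeasurePreserving (T k) (nuM Q) (nuM Q))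
    {σ : YY → YY} (hσ : MeasurePreserving σ (nuM Q) (nuM Q))
    (hσA : ∀ y, σ y ∈ AC Cn ↔ y ∈ AC Cn)
    (hloc : ∀ {F : Finset Ed} {B : Set YY}, LocOn F B → ∀ {y : YY}, GY y → CW y → ∀ {k : ℕ},
      T k y ∉ Far F k → (T k (tog y) ∈ B ↔ σ (T k y) ∈ B)) :
    Tendsto (fun k : ℕ => nuM Q {y | ¬ (T k (RC Cn y) ∈ AC Cn ↔ T k y ∈ AC Cn)}) atTop (𝓝 0) := by
  have hQ : IsW lam Q := h.isW
  have hfin : IsFiniteMeasure (nuM Q) := ⟨hQ.nu_lt⟩
  have hmA := measurableSet_AC h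
  set ν := nuM Q with hν
  rw [ENNReal.tendsto_nhds_zero]
  intro ε hε
  by_cases htop : ε = ⊤
  · exact Eventually.of_forall fun k => by rw [htop]; exact le_top
  set δ : ℝ := ε.toReal / 3 with hδ
  have hε' : 0 < ε.toReal := ENNReal.toReal_pos hε.ne' htop
  have hδ0 : 0 < δ := by positivity
  have h3δ : ENNReal.ofReal δ + ENNReal.ofReal δ + ENNReal.ofReal δ = ε := by
    rw [← ENNReal.ofReal_add hδ0.le hδ0.le, ← ENNReal.ofReal_add (by positivity) hδ0.le,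
      show δ + δ + δ = ε.toReal by rw [hδ]; ring, ENNReal.ofReal_toReal htop]
  obtain ⟨B, hBm, ⟨F, hB⟩, hAB⟩ := exists_local ν hmA hδ0
  have hABm : MeasurableSet (AC Cn ∆ B) := hmA.symmDiff hBm
  have hfar := (ENNReal.tendsto_nhds_zero.1 (tendsto_Far hQ F)) (ENNReal.ofReal δ)
    (ENNReal.ofReal_pos.2 hδ0)
  filter_upwards [hfar] with k hk
  have hmT := hT k
  have hmR := mp_RC h
  have h1 : ν {y | T k (RC Cn y) ∈ AC Cn ∆ B} = ν (AC Cn ∆ B) :=
    (hmT.comp hmR).measure_preimage hABm.nullMeasurableSet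
  have h2 : ν {y | σ (T k y) ∈ AC Cn ∆ B} = ν (AC Cn ∆ B) :=
    (hσ.comp hmT).measure_preimage hABm.nullMeasurableSet
  have h3 : ν {y | T k y ∈ Far F k} = ν (Far F k) :=
    hmT.measure_preimage (measurableSet_Far F k).nullMeasurableSet
  have hsub : ν {y | ¬ (T k (RC Cn y) ∈ AC Cn ↔ T k y ∈ AC Cn)} ≤
      ν ({y | T k (RC Cn y) ∈ AC Cn ∆ B} ∪ {y | σ (T k y) ∈ AC Cn ∆ B} ∪
        {y | T k y ∈ Far F k}) := by
    apply measure_mono_ae
    filter_upwards [ae_CW h, hQ.ae_GY] with y hc hG hy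
    by_contra hcon
    have hcon' : ¬ (y ∈ ({y | T k (RC Cn y) ∈ AC Cn ∆ B} ∪ {y | σ (T k y) ∈ AC Cn ∆ B} ∪
      {y | T k y ∈ Far F k})) := hcon
    simp only [Set.mem_union, Set.mem_ofPred_eq, not_or] at hcon'
    obtain ⟨⟨c1, c2⟩, c3⟩ := hcon'
    apply hy
    by_cases hA : y ∈ AC Cn
    · have c4 := hloc hB hG hc c3
      rw [RC_of_mem hA] at c1 ⊢
      have c5 : T k (tog y) ∈ AC Cn ↔ T k (tog y) ∈ B := by
        rw [Set.mem_symmDiff] at c1
        tauto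
      have c6 : σ (T k y) ∈ AC Cn ↔ σ (T k y) ∈ B := by
        rw [Set.mem_symmDiff] at c2
        tauto
      rw [hσA] at c6
      rw [c5, c4, c6]
    · rw [RC_of_notMem hA]
  calc ν {y | ¬ (T k (RC Cn y) ∈ AC Cn ↔ T k y ∈ AC Cn)}
      ≤ _ := hsub
    _ ≤ ν {y | T k (RC Cn y) ∈ AC Cn ∆ B} + ν {y | σ (T k y) ∈ AC Cn ∆ B} +
        ν {y | T k y ∈ Far F k} :=
      (measure_union_le _ _).trans (add_le_add (measure_union_le _ _) le_rfl)
    _ ≤ ENNReal.ofReal δ + ENNReal.ofReal δ + ENNReal.ofReal δ := by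
      rw [h1, h2, h3]
      exact add_le_add (add_le_add hAB.le hAB.le) hk
    _ = ε := h3δ

theorem loc_pos [IsProbabilityMeasure lam] (h : HC lam Cn Q) :
    Tendsto (fun k : ℕ => nuM Q {y | ¬ (Tz (k : ℤ) (RC Cn y) ∈ AC Cn ↔ Tz (k : ℤ) y ∈ AC Cn)})
      atTop (𝓝 0) :=
  core h (T := fun k => Tz (k : ℤ)) (fun k => h.isW.mp_Tz _) (σ := sw) (mp_sw h)
    sw_AC (fun hB _ hy hc _ hk => local_pos hB hy hc hk)

theorem loc_neg [IsProbabilityMeasure lam] (h : HC lam Cn Q) :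
    Tendsto (fun k : ℕ => nuM Q
      {y | ¬ (Tz (-(k : ℤ)) (RC Cn y) ∈ AC Cn ↔ Tz (-(k : ℤ)) y ∈ AC Cn)}) atTop (𝓝 0) :=
  core h (T := fun k => Tz (-(k : ℤ))) (fun k => h.isW.mp_Tz _) (σ := id)
    (MeasurePreserving.id _) (fun _ => Iff.rfl) (fun hB _ hy _ _ hk => local_neg hB hy hk)

end Pool.Agent.Helper83.MMS
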