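import Pool.Agent.Helper83.MM.ErgB
import Pool.Agent.Helper83.MM.Loc

set_option autoImplicit false

/-!
# Canonical pairs: zero-one law on the wall space
-/

open MeasureTheory ProbabilityTheory Filter Topology
open scoped symmDiff

namespace Pool.Agent.Helper83.MMS

open Pool.Agent.Helper60.TJ Pool.Agent.Helper61.MM

variable {lam : Measure ℝ} {Cn : WT → Set (Ed → Bool)} {Q : Measure XX}

namespace Ergx

/-- points of `XX` with a wall point in `E` -/
def Dp (E : Set YY) : Set XX :=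
  {p | ∃ (u : Vx) (d : Dir), wl (shX u p) (edg 0 d) = true ∧ ((shX u p, d) : YY) ∈ E}

theorem meas_wall (d : Dir) : MeasurableSet {p : XX | wl p (edg 0 d) = true} :=
  measurableSet_eq_fun ((measurable_pi_apply (edg 0 d)).comp measurable_wl) measurable_const

theorem meas_slice {E : Set YY} (hE : MeasurableSet E) (d : Dir) :
    MeasurableSet {p : XX | wl p (edg 0 d) = true ∧ ((p, d) : YY) ∈ E} := by
  have hm : Measurable (fun p : XX => ((p, d) : YY)) := measurable_id.prodMk measurable_const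
  exact (meas_wall d).inter (hm hE)

theorem Dp_eq (E : Set YY) : Dp E =
    ⋃ (u : Vx), ⋃ (d : Dir), shX u ⁻¹' {p : XX | wl p (edg 0 d) = true ∧ ((p, d) : YY) ∈ E} := by
  ext p
  simp [Dp]

theorem measurableSet_Dp {E : Set YY} (hE : MeasurableSet E) : MeasurableSet (Dp E) := by
  rw [Dp_eq]
  exact MeasurableSet.iUnion fun u => MeasurableSet.iUnion fun d => measurable_shX u (meas_slice hE d)

theorem nu_eq' (Q : Measure XX) {A : Set YY} (hA : MeasurableSet A) :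
    nuM Q A = ∑ d : Dir, Q {p | wl p (edg 0 d) = true ∧ ((p, d) : YY) ∈ A} := by
  unfold nuM
  rw [Measure.finsetSum_apply]
  refine Finset.sum_congr rfl fun d _ => ?_
  have hm : Measurable (fun p : XX => ((p, d) : YY)) := measurable_id.prodMk measurable_const
  rw [Measure.map_apply hm hA, Measure.restrict_apply (hm hA)]
  congr 1
  ext p
  simp only [Set.mem_inter_iff, Set.mem_preimage, Set.mem_ofPred_eq]
  tauto

theorem Dp_null (hQ : IsW lam Q) {E : Set YY}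
    (hE : MeasurableSet E) (h : nuM Q E = 0) : Q (Dp E) = 0 := by
  rw [Dp_eq]
  refine measure_iUnion_null fun u => measure_iUnion_null fun d => ?_
  rw [(hQ.inv u).measure_preimage (meas_slice hE d).nullMeasurableSet]
  rw [nu_eq' Q hE, Finset.sum_eq_zero_iff] at h
  exact h d (Finset.mem_univ _)

theorem null_of_Dp {Q : Measure XX} {E : Set YY} (hE : MeasurableSet E) (h : Q (Dp E) = 0) :
    nuM Q E = 0 := by
  rw [nu_eq' Q hE, Finset.sum_eq_zero_iff]
  intro d _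
  refine measure_mono_null ?_ h
  intro p hp
  refine ⟨0, d, ?_, ?_⟩
  · rw [shX_zero]; exact hp.1
  · rw [shX_zero]; exact hp.2

theorem Dp_shX (E : Set YY) (u : Vx) : shX u ⁻¹' Dp E = Dp E := by
  ext p
  constructor
  · rintro ⟨v, d, h1, h2⟩
    rw [shX_shX] at h1 h2
    exact ⟨v + u, d, h1, h2⟩
  · rintro ⟨v, d, h1, h2⟩
    refine ⟨v - u, d, ?_, ?_⟩
    · rw [shX_shX, sub_add_cancel]; exact h1
    · rw [shX_shX, sub_add_cancel]; exact h2

/-- the good points for the set `E` -/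
def Gd (E : Set YY) (y : YY) : Prop :=
  GY y ∧ CW y ∧ (Th y ∈ E ↔ y ∈ E) ∧ (rv y ∈ E ↔ y ∈ E) ∧ (sw y ∈ E ↔ y ∈ E)

/-- all wall points over `p` are good -/
def AG (E : Set YY) (p : XX) : Prop :=
  ∀ (u : Vx) (d : Dir), wl (shX u p) (edg 0 d) = true → Gd E (shX u p, d)

/-- `y` is a wall point over `p` -/
def Ov (p : XX) (y : YY) : Prop := (∃ u : Vx, y.1 = shX u p) ∧ wl y.1 (edg 0 y.2) = true

theorem AG.gd {E : Set YY} {p : XX} (h : AG E p) {y : YY} (hy : Ov p y) : Gd E y := by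
  obtain ⟨⟨u, hu⟩, hw⟩ := hy
  obtain ⟨q, d⟩ := y
  simp only at hu hw
  subst hu
  exact h u d hw

theorem Ov.th {E : Set YY} {p : XX} (h : AG E p) {y : YY} (hy : Ov p y) : Ov p (Th y) := by
  have h1 : GY (Th y) := (h.gd hy).1.th
  obtain ⟨⟨u, hu⟩, -⟩ := hy
  refine ⟨⟨stp y.2 + u, ?_⟩, h1.2.1⟩
  show shX (stp y.2) y.1 = _
  rw [hu, shX_shX]

theorem Ov.rv {E : Set YY} {p : XX} (h : AG E p) {y : YY} (hy : Ov p y) : Ov p (rv y) := by
  have h1 : GY (Pool.Agent.Helper60.TJ.rv y) := (h.gd hy).1.rv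
  exact ⟨hy.1, h1.2.1⟩

theorem Ov.iter {E : Set YY} {p : XX} (h : AG E p) {y : YY} (hy : Ov p y) (n : ℕ) :
    Ov p (Th^[n] y) ∧ (Th^[n] y ∈ E ↔ y ∈ E) := by
  induction n with
  | zero => exact ⟨hy, Iff.rfl⟩
  | succ n ih =>
    rw [Function.iterate_succ_apply']
    exact ⟨ih.1.th h, ((h.gd ih.1).2.2.1).trans ih.2⟩

theorem Ov.tz {E : Set YY} {p : XX} (h : AG E p) {y : YY} (hy : Ov p y) (k : ℤ) :
    Ov p (Tz k y) ∧ (Tz k y ∈ E ↔ y ∈ E) := by
  have hg := (h.gd hy).1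
  rcases Int.eq_nat_or_neg k with ⟨n, rfl | rfl⟩
  · rw [Tz_natCast hg]
    exact hy.iter h n
  · rw [Tz_neg_natCast hg]
    have h1 := hy.rv h
    have h2 := h1.iter h n
    have h3 := h2.1.rv h
    refine ⟨h3, ?_⟩
    rw [(h.gd h2.1).2.2.2.1, h2.2, (h.gd hy).2.2.2.1]

theorem Ov.eq {E : Set YY} {p : XX} (h : AG E p) {y y' : YY} (hy : Ov p y) (hy' : Ov p y') :
    ∃ k : ℤ, y' = Tz k y ∨ y' = Pool.Agent.Helper60.TJ.rv (Tz k y) := by
  have hg := h.gd hy
  obtain ⟨⟨u, hu⟩, hw⟩ := hy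
  obtain ⟨⟨u', hu'⟩, hw'⟩ := hy'
  have e1 : y'.1 = shX (u' - u) y.1 := by rw [hu', hu, shX_shX, sub_add_cancel]
  have h1 : OnW (wl y.1) (u' - u) := by
    refine ⟨y'.2, ?_⟩
    rw [e1, wl_shX, sh_edg, zero_add] at hw'
    exact hw'
  obtain ⟨k, hk⟩ := exists_posz hg.1 (hg.2.1 _ h1)
  have e2 : y'.1 = (Tz k y).1 := by rw [e1, Tz_fst hg.1, hk]
  have hgk : GY (Tz k y) := GY_Tz hg.1
  refine ⟨k, ?_⟩
  by_cases hd : y'.2 = (Tz k y).2
  · exact Or.inl (Prod.ext e2 hd)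
  · right
    refine Prod.ext e2 ?_
    have h2 := (oth_spec' hgk.1 (v := 0) hgk.2.1).2.2 y'.2 (by rw [← e2]; exact hw') hd
    exact h2

theorem Ov.iff {E : Set YY} {p : XX} (h : AG E p) {y y' : YY} (hy : Ov p y) (hy' : Ov p y') :
    y' ∈ E ↔ y ∈ E := by
  obtain ⟨k, hk⟩ := hy.eq h hy'
  have h1 := hy.tz h k
  rcases hk with rfl | rfl
  · exact h1.2
  · rw [(h.gd h1.1).2.2.2.1, h1.2]

theorem wl_comm (J : Ed → ℝ) (U U' : Ed → Bool) : wl (J, U, U') = wl (J, U', U) := by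
  unfold wl bx
  funext e
  exact Bool.xor_comm _ _

/-- over base points with two T-joins all wall points are in `E` or none -/
theorem dich {b : WT} (hb : (Cn b).ncard = 2) {E : Set YY}
    (h : ∀ U ∈ Cn b, ∀ U' ∈ Cn b, U ≠ U' → AG E (b.1, U, U')) :
    ctC Cn (Dp E) b = 0 ∨ ctC Cn (Dp Eᶜ) b = 0 := by
  by_contra hcon
  push Not at hcon
  obtain ⟨h1, h2⟩ := hcon
  have h3 : ∃ U ∈ Cn b, ∃ U' ∈ Cn b, U ≠ U' ∧ (b.1, U, U') ∈ Dp E := by
    by_contra hc
    push Not at hc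
    exact h1 (ctC_eq_zero hc)
  have h4 : ∃ U ∈ Cn b, ∃ U' ∈ Cn b, U ≠ U' ∧ (b.1, U, U') ∈ Dp Eᶜ := by
    by_contra hc
    push Not at hc
    exact h2 (ctC_eq_zero hc)
  obtain ⟨U, hU, U', hU', hne, u, d, hw, hE⟩ := h3
  obtain ⟨V, hV, V', hV', hne', v, e, hw', hE'⟩ := h4
  have hag := h U hU U' hU' hne
  have htwo : Cn b = {U, U'} := by
    symm
    apply Set.eq_of_subset_of_ncard_le
    · intro A hA
      rcases hA with rfl | rfl
      · exact hU
      · exact hU'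
    · rw [hb, Set.ncard_pair hne]
    · exact finite_two hb
  have ho : Ov (b.1, U, U') (shX u (b.1, U, U'), d) := ⟨⟨u, rfl⟩, hw⟩
  rw [htwo] at hV hV'
  rcases hV with rfl | hV
  · rcases hV' with rfl | hV'
    · exact hne' rfl
    · rw [Set.mem_singleton_iff] at hV'
      subst hV'
      have ho' : Ov (b.1, V, V') (shX v (b.1, V, V'), e) := ⟨⟨v, rfl⟩, hw'⟩
      exact hE' ((ho.iff hag ho').2 hE)
  · rw [Set.mem_singleton_iff] at hV
    subst hV
    rcases hV' with rfl | hV'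
    · have hw2 : wl (shX v (b.1, V', V)) (edg 0 e) = true := by
        have := wl_comm (sh v b.1) (sh v V) (sh v V')
        unfold shX at hw' ⊢
        simp only at hw' ⊢
        rw [← this]
        exact hw'
      have ho' : Ov (b.1, V', V) (shX v (b.1, V', V), e) := ⟨⟨v, rfl⟩, hw2⟩
      have h5 : ((shX v (b.1, V', V), e) : YY) ∈ E := (ho.iff hag ho').2 hE
      have h6 := (hag.gd ho').2.2.2.2
      exact hE' (h6.2 h5)
    · rw [Set.mem_singleton_iff] at hV'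
      exact hne' hV'.symm

theorem sh_inj (u : Vx) {U V : Ed → Bool} (h : sh u U = sh u V) : U = V := by
  have h1 := congrArg (sh (-u)) h
  rw [sh_sh, sh_sh, neg_add_cancel, sh_zero, sh_zero] at h1
  exact h1

theorem ctC_sh {E : Set YY} {u : Vx} {b : WT} (hs : Cn (shB u b) = sh u '' Cn b) :
    ctC Cn (Dp E) (shB u b) = ctC Cn (Dp E) b := by
  unfold ctC
  congr 1
  refine Nat.cast_inj.2 ?_
  symm
  refine Set.ncard_congr (fun q _ => (sh u q.1, sh u q.2)) ?_ ?_ ?_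
  · rintro ⟨U, U'⟩ ⟨hU, hU', hne, hD⟩
    refine ⟨?_, ?_, ?_, ?_⟩
    · rw [hs]; exact ⟨U, hU, rfl⟩
    · rw [hs]; exact ⟨U', hU', rfl⟩
    · intro hc
      exact hne (sh_inj u hc)
    · show shX u (b.1, U, U') ∈ Dp E
      have : shX u ⁻¹' Dp E = Dp E := Dp_shX E u
      rw [← this] at hD
      exact hD
  · rintro ⟨U, U'⟩ ⟨V, V'⟩ _ _ hqq
    have e1 : U = V := sh_inj u (congrArg Prod.fst hqq)
    have e2 : U' = V' := sh_inj u (congrArg Prod.snd hqq)
    rw [e1, e2]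
  · rintro ⟨V, V'⟩ ⟨hV, hV', hne, hD⟩
    simp only at hV hV' hne
    rw [hs] at hV hV'
    obtain ⟨U, hU, rfl⟩ := hV
    obtain ⟨U', hU', rfl⟩ := hV'
    refine ⟨(U, U'), ⟨hU, hU', fun hc => hne (congrArg _ hc), ?_⟩, rfl⟩
    have : shX u ⁻¹' Dp E = Dp E := Dp_shX E u
    rw [← this]
    exact hD

end Ergx

open Ergx in
/-- a set of the wall space which is invariant under steps, reversal and exchange -/
theorem zero_one_Y [IsProbabilityMeasure lam] (h : HC lam Cn Q)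
    {E : Set YY} (hE : MeasurableSet E) (h1 : ∀ᵐ y ∂(nuM Q), (Th y ∈ E ↔ y ∈ E))
    (h2 : ∀ᵐ y ∂(nuM Q), (rv y ∈ E ↔ y ∈ E)) (h3 : ∀ᵐ y ∂(nuM Q), (sw y ∈ E ↔ y ∈ E)) :
    nuM Q E = 0 ∨ nuM Q Eᶜ = 0 := by
  have hg : ∀ᵐ y ∂(nuM Q), Gd E y := by
    filter_upwards [h.isW.ae_GY, ae_CW h, h1, h2, h3] with y hy hc a b c
    exact ⟨hy, hc, a, b, c⟩
  obtain ⟨N, hN, hNm, hN0⟩ := exists_measurable_superset_of_null (ae_iff.1 hg)
  have hD0 := Dp_null h.isW hNm hN0
  have hae := ae_all h (measurableSet_Dp hNm) hD0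
  have hd : ∀ᵐ b ∂(PB lam), ctC Cn (Dp E) b = 0 ∨ ctC Cn (Dp Eᶜ) b = 0 := by
    filter_upwards [hae, h.two] with b hb hn
    refine dich hn.2.2.1 fun U hU U' hU' hne u d hw => ?_
    by_contra hc
    exact hb U hU U' hU' hne ⟨u, d, hw, hN hc⟩
  set S : Set WT := {b | ctC Cn (Dp E) b ≠ 0} with hS
  have hSm : NullMeasurableSet S (PB lam) := by
    have h := (h.cntm _ (measurableSet_Dp hE)).nullMeasurable
      (measurableSet_singleton (0 : ENNReal)).compl
    exact h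
  have hinv : shB (1, 0) ⁻¹' S =ᵐ[PB lam] S := by
    filter_upwards [h.sh (1, 0)] with b hb
    refine propext ?_
    show ctC Cn (Dp E) (shB (1, 0) b) ≠ 0 ↔ ctC Cn (Dp E) b ≠ 0
    rw [ctC_sh hb]
  rcases (ergodic_shB lam).quasiErgodic.ae_empty_or_univ₀ hSm hinv with hc | hc
  · left
    apply null_of_Dp hE
    rw [null_iff h (measurableSet_Dp hE)]
    have h' : ∀ᵐ b ∂(PB lam), b ∉ S := by
      filter_upwards [hc] with b hb hbS
      exact (iff_of_eq hb).1 hbS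
    filter_upwards [h'] with b hb
    by_contra hc
    exact hb hc
  · right
    apply null_of_Dp hE.compl
    rw [null_iff h (measurableSet_Dp hE.compl)]
    have h' : ∀ᵐ b ∂(PB lam), b ∈ S := by
      filter_upwards [hc] with b hb
      exact (iff_of_eq hb).2 trivial
    filter_upwards [h', hd] with b hb hb2
    rcases hb2 with hc | hc
    · exact absurd hc hb
    · exact hc

end Pool.Agent.Helper83.MMS
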