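import Pool.Agent.Helper83.MM.Pos
import Pool.Agent.Helper83.MM.Erg
import Pool.Agent.Helper83.S5.Dens
import Pool.Agent.EAG.Main

set_option autoImplicit false

/-!
# The wall between the canonical T-joins is a system with reflections; there are no two canonical
T-joins
-/

open MeasureTheory ProbabilityTheory Filter Topology
open scoped symmDiff

namespace Pool.Agent.Helper83.MMS

open Pool.Agent.Helper60.TJ Pool.Agent.Helper61.MM Pool.Agent.EAG

variable {lam : Measure ℝ} {Cn : WT → Set (Ed → Bool)} {Q : Measure XX}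

/-- normalised wall measure -/
noncomputable def nuN (Q : Measure XX) : Measure YY := (nuM Q Set.univ)⁻¹ • nuM Q

theorem c_ne_zero [IsProbabilityMeasure lam] (h : HC lam Cn Q) : nuM Q Set.univ ≠ 0 :=
  (h.isW.nu_pos (Q_ne_zero h)).ne'

theorem c_ne_top (h : HC lam Cn Q) : nuM Q Set.univ ≠ ⊤ := h.isW.nu_lt.ne

theorem nuN_apply (Q : Measure XX) (s : Set YY) :
    nuN Q s = (nuM Q Set.univ)⁻¹ * nuM Q s := by
  rw [nuN, Measure.smul_apply, smul_eq_mul]

theorem nuN_real (Q : Measure XX) (s : Set YY) :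
    (nuN Q).real s = ((nuM Q Set.univ)⁻¹).toReal * (nuM Q s).toReal := by
  rw [measureReal_def, nuN_apply, ENNReal.toReal_mul]

theorem tendsto_nuN {s : ℕ → Set YY} (h : Tendsto (fun k => nuM Q (s k)) atTop (𝓝 0)) :
    Tendsto (fun k => (nuN Q).real (s k)) atTop (𝓝 0) := by
  have h1 : Tendsto (fun k => (nuM Q (s k)).toReal) atTop (𝓝 0) := by
    have := (ENNReal.tendsto_toReal (a := 0) ENNReal.zero_ne_top).comp h
    simpa [Function.comp_def] using this
  have h2 := h1.const_mul ((nuM Q Set.univ)⁻¹).toReal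
  rw [mul_zero] at h2
  simpa only [nuN_real] using h2

theorem iter_Tz (n : ℕ) (y : YY) : (Tz 1)^[n] y = Tz (n : ℤ) y := by
  induction n with
  | zero => rw [Function.iterate_zero, id, Nat.cast_zero, Tz_zero]
  | succ n ih =>
    rw [Function.iterate_succ_apply', ih, ← Tz_add]
    congr 1
    push_cast
    ring

theorem isProb_nuN [IsProbabilityMeasure lam] (h : HC lam Cn Q) :
    IsProbabilityMeasure (nuN Q) := by
  refine ⟨?_⟩
  rw [nuN_apply]
  exact ENNReal.inv_mul_cancel (c_ne_zero h) (c_ne_top h)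

theorem mp_nuN {f : YY → YY} (hf : MeasurePreserving f (nuM Q) (nuM Q)) :
    MeasurePreserving f (nuN Q) (nuN Q) := hf.smul_measure _

theorem ae_nuN {P : YY → Prop} (h : ∀ᵐ y ∂(nuM Q), P y) :
    ∀ᵐ y ∂(nuN Q), P y := Measure.ae_smul_measure h _

/-- the system -/
theorem exists_sys [IsProbabilityMeasure lam] (h : HC lam Cn Q) :
    ∃ S : Sys YY (nuN Q), S.Th = Tz ∧ S.x = xv ∧ S.A = AC Cn ∧ S.R = RC Cn :=
  ⟨{ Th := Tz
     mpTh := fun k => mp_nuN (h.isW.mp_Tz k)
     Th_zero := Tz_zero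
     Th_add := Tz_add
     x := xv
     hx := measurable_xv
     A := AC Cn
     hA := measurableSet_AC h
     R := RC Cn
     mpR := mp_nuN (mp_RC h)
     R_mem := by
       refine Eventually.of_forall fun y hy => ?_
       rw [RC_of_mem hy]
       exact tog_mem hy
     R_off := fun y hy => RC_of_notMem hy
     xR_pos := by
       filter_upwards [ae_nuN h.isW.ae_GY] with y hy hA k
       rw [RC_of_mem hA]
       exact xv_tog_nonneg hy k
     xR_neg := by
       filter_upwards [ae_nuN h.isW.ae_GY] with y hy hA k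
       rw [RC_of_mem hA]
       exact xv_tog_neg hy (by omega) }, rfl, rfl, rfl, rfl⟩

theorem sys_V (_h : HC lam Cn Q)
    {S : Sys YY (nuN Q)} (h1 : S.Th = Tz) (h2 : S.x = xv) {y : YY} (hy : GY y) (n : ℕ) :
    S.V y n = Vn n y := by
  unfold Sys.V Vn
  refine Finset.sum_congr rfl fun l _ => ?_
  rw [h1, h2, Tz_natCast hy]

theorem sys_loc [IsProbabilityMeasure lam] (h : HC lam Cn Q)
    {S : Sys YY (nuN Q)} (h1 : S.Th = Tz) (h3 : S.A = AC Cn) (h4 : S.R = RC Cn) : S.Loc := by
  refine ⟨?_, ?_⟩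
  · rw [h1, h3, h4]
    exact tendsto_nuN (loc_pos h)
  · rw [h1, h3, h4]
    exact tendsto_nuN (loc_neg h)

theorem Th_sw (y : YY) : Th (sw y) = sw (Th y) := by
  obtain ⟨p, d⟩ := y
  show ((shX (stp d) (swp p), nxt (wl (shX (stp d) (swp p))) 0 d) : YY) =
    (swp (shX (stp d) p), nxt (wl (shX (stp d) p)) 0 d)
  have h1 : shX (stp d) (swp p) = swp (shX (stp d) p) := rfl
  rw [h1, wl_swp]

theorem sys_dens [IsProbabilityMeasure lam] (h : HC lam Cn Q)
    {S : Sys YY (nuN Q)} (h1 : S.Th = Tz) (h3 : S.A = AC Cn) :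
    S.Dens ((nuN Q).real (AC Cn)) := by
  have := isProb_nuN h
  have hG := ae_nuN h.isW.ae_GY
  have key := Pool.Agent.Helper83.S5.dens_of_erg (ν := nuN Q) (T := Tz 1) (T' := Tz (-1)) (r := rv)
    (s := sw)
    (mp_nuN (h.isW.mp_Tz 1)) (mp_nuN (h.isW.mp_Tz (-1))) (mp_nuN h.isW.mp_rv)
    (mp_nuN (mp_sw h)) (A := AC Cn)
    (by
      refine Eventually.of_forall fun y => ?_
      rw [← Tz_add]; norm_num [Tz_zero])
    (by
      refine Eventually.of_forall fun y => ?_
      rw [← Tz_add]; norm_num [Tz_zero])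
    (by
      filter_upwards [hG] with y hy
      exact rv_Tz hy 1)
    (by
      filter_upwards [hG] with y hy
      have h2 : GY (sw y) := (GY_congr (wl_sw y) rfl).2 hy
      rw [Tz_one h2, Tz_one hy, Th_sw])
    (measurableSet_AC h)
    (by
      filter_upwards [hG] with y hy
      exact rv_AC hy)
    (Eventually.of_forall fun y => sw_AC y)
    (by
      intro E hE h1 h2 h3
      have hc := c_ne_zero h
      have ht := c_ne_top h
      have hb : ∀ {P : YY → Prop}, (∀ᵐ y ∂(nuN Q), P y) → ∀ᵐ y ∂(nuM Q), P y := by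
        intro P hP
        rw [ae_iff] at hP ⊢
        rw [nuN_apply, mul_eq_zero, ENNReal.inv_eq_zero] at hP
        exact hP.resolve_left ht
      have h0 : nuM Q E = 0 ∨ nuM Q Eᶜ = 0 := by
        refine zero_one_Y h hE ?_ (hb h2) (hb h3)
        filter_upwards [hb h1, h.isW.ae_GY] with y hy hy2
        rwa [Tz_one hy2] at hy
      rcases h0 with h0 | h0
      · left; rw [nuN_apply, h0, mul_zero]
      · right; rw [nuN_apply, h0, mul_zero])
  unfold Sys.Dens
  refine key.congr fun n => ?_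
  refine integral_congr_ae (Eventually.of_forall fun y => ?_)
  have hcard : ((S.adm y (Finset.range n)).card : ℝ)
      = ∑ k ∈ Finset.range n, (AC Cn).indicator (fun _ => (1 : ℝ)) ((Tz 1)^[k] y) := by
    classical
    unfold Sys.adm
    rw [Finset.card_filter]
    push_cast
    refine Finset.sum_congr rfl fun k _ => ?_
    rw [iter_Tz, h1, h3, Set.indicator_apply]
  simp only [hcard]

theorem sys_noTight (hl : Wgt lam) (h : HC lam Cn Q)
    {S : Sys YY (nuN Q)} (h1 : S.Th = Tz) (h2 : S.x = xv) : S.NoTight := by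
  have hc := h.isW.cl hl 1
  have hfin : IsFiniteMeasure (nuM Q) := ⟨h.isW.nu_lt⟩
  unfold Sys.NoTight
  have hc2 := hc.const_mul ((nuM Q Set.univ)⁻¹).toReal
  rw [mul_zero] at hc2
  refine squeeze_zero (fun n => ?_) (fun n => ?_) hc2
  · exact div_nonneg (Finset.sum_nonneg fun _ _ => measureReal_nonneg) (Nat.cast_nonneg _)
  · rw [← mul_assoc, mul_comm ((nuM Q Set.univ)⁻¹).toReal, mul_assoc, Finset.mul_sum,
      div_eq_inv_mul]
    refine mul_le_mul_of_nonneg_left (Finset.sum_le_sum fun k _ => ?_)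
      (inv_nonneg.2 (Nat.cast_nonneg _))
    rw [nuN_real]
    refine mul_le_mul_of_nonneg_left ?_ ENNReal.toReal_nonneg
    have h3 : nuM Q {y | |S.V y k| < 1} ≤ nuM Q {y | |Vn k y| ≤ 1} := by
      refine measure_mono_ae ?_
      filter_upwards [h.isW.ae_GY] with y hy h4
      have h6 : |S.V y k| < 1 := h4
      rw [sys_V h h1 h2 hy] at h6
      exact h6.le
    exact ENNReal.toReal_mono (measure_ne_top _ _) h3

end Pool.Agent.Helper83.MMS

namespace Pool.Agent.Helper61.MM

open Pool.Agent.Helper60.TJ Pool.Agent.EAG Pool.Agent.Helper83.MMS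

variable {lam : Measure ℝ} {Cn : WT → Set (Ed → Bool)} {Q : Measure XX}

/-- a canonical pair and a subdiffusive wall are incompatible -/
theorem no_two (hl : Wgt lam) (hC : HC lam Cn Q)
    (hS : SubD Q) : False := by
  have := hl.prob
  have hprob := isProb_nuN hC
  have hfin : IsFiniteMeasure (nuM Q) := ⟨hC.isW.nu_lt⟩
  obtain ⟨S, e1, e2, e3, e4⟩ := exists_sys hC
  have hc := c_ne_zero hC
  have ht := c_ne_top hC
  have hinv : 0 < ((nuM Q Set.univ)⁻¹).toReal :=
    ENNReal.toReal_pos (ENNReal.inv_ne_zero.2 ht) (ENNReal.inv_ne_top.2 hc)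
  have hα : 0 < (nuN Q).real (Pool.Agent.Helper83.MMS.AC Cn) := by
    rw [nuN_real]
    exact mul_pos hinv (ENNReal.toReal_pos (AC_pos hC) (measure_ne_top _ _))
  refine Pool.Agent.EAG.not_sub S hα (sys_loc hC e1 e3 e4) (sys_dens hC e1 e3)
    (sys_noTight hl hC e1 e2) ?_
  intro δ hδ
  obtain ⟨n₁, hn⟩ := hS (δ / ((nuM Q Set.univ)⁻¹).toReal) (div_pos hδ hinv)
  refine ⟨n₁, fun n hn1 m hm => ?_⟩
  have h7 := hn n hn1 m hm
  have h8 : nuM Q {y | (n : ℝ) < |S.V y m| ^ 3} = nuM Q {y | (n : ℝ) < |Vn m y| ^ 3} := by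
    refine measure_congr ?_
    filter_upwards [hC.isW.ae_GY] with y hy
    show ((n : ℝ) < |S.V y m| ^ 3) = ((n : ℝ) < |Vn m y| ^ 3)
    rw [sys_V hC e1 e2 hy]
  rw [nuN_real, h8]
  rw [measureReal_def] at h7
  calc _ ≤ ((nuM Q Set.univ)⁻¹).toReal * (δ / ((nuM Q Set.univ)⁻¹).toReal) :=
        mul_le_mul_of_nonneg_left h7 hinv.le
    _ = δ := by field_simp

end Pool.Agent.Helper61.MM
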