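import Pool.Agent.Helper61.MM.DefsB
import Pool.Agent.Helper60.MW.Cl
import Pool.Agent.Helper66.TJ.Refl

set_option autoImplicit false

/-!
# Canonical pairs: the law of the base point
-/

open MeasureTheory ProbabilityTheory Filter Topology
open scoped symmDiff

namespace Pool.Agent.Helper83.MMS

open Pool.Agent.Helper60.TJ Pool.Agent.Helper61.MM

/-- weights and frustrated plaquettes of a pair -/
def bw (p : XX) : WT := (p.1, par p.2.1)

theorem measurable_bw : Measurable bw :=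
  measurable_fst.prodMk (measurable_pi_lambda _ fun v =>
    (measurable_par v).comp (measurable_fst.comp measurable_snd))

/-! ### toggles of the base point -/

theorem indV_singleton (v : Vx) : indV {v} = dl v := by
  funext x
  unfold indV dl
  simp

theorem vx_vx (S T T' : Vx → Bool) : vx (vx S T) T' = vx S (vx T T') := by
  funext v; unfold vx; cases S v <;> cases T v <;> cases T' v <;> rfl

theorem indV_symm (S T : Finset Vx) : indV (S ∆ T) = vx (indV S) (indV T) := by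
  funext v
  unfold indV vx
  rw [Bool.eq_iff_iff, Bool.xor_iff_ne]
  simp only [decide_eq_true_eq, Finset.mem_symmDiff, ne_eq, decide_eq_decide]
  tauto

theorem tB_tB (S T : Finset Vx) (b : WT) : tB T (tB S b) = tB (S ∆ T) b := by
  unfold tB
  rw [indV_symm, vx_vx]

theorem tB_self (S : Finset Vx) (b : WT) : tB S (tB S b) = b := by
  rw [tB_tB, symmDiff_self]
  unfold tB
  refine Prod.ext rfl ?_
  funext v
  unfold vx indV
  simp

instance : IsProbabilityMeasure coin := by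
  refine ⟨?_⟩
  unfold coin
  rw [Measure.smul_apply, Measure.add_apply]
  simp only [measure_univ, smul_eq_mul]
  rw [one_add_one_eq_two, ENNReal.inv_mul_cancel (by norm_num) (by norm_num)]

theorem coin_not : coin.map (fun b => !b) = coin := by
  have hm : Measurable (fun b : Bool => !b) := measurable_of_countable _
  unfold coin
  rw [Measure.map_smul, Measure.map_add _ _ hm, Measure.map_dirac' hm, Measure.map_dirac' hm]
  rw [Bool.not_true, Bool.not_false, add_comm]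

theorem mp_vx (c : Vx → Bool) : MeasurePreserving (fun T : Vx → Bool => vx T c) PT PT := by
  refine ⟨measurable_pi_lambda _ fun v => (measurable_of_countable fun b : Bool => xor b (c v)).comp
    (measurable_pi_apply v), ?_⟩
  have h := Measure.infinitePi_map_pi (μ := fun _ : Vx => coin)
    (f := fun v (b : Bool) => xor b (c v)) (fun v => measurable_of_countable _)
  show Measure.map (fun T : Vx → Bool => fun v => xor (T v) (c v)) PT = PT
  rw [h]
  congr 1
  funext v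
  cases c v
  · simp
  · simp only [Bool.xor_true]
    exact coin_not

theorem mp_tB (lam : Measure ℝ) [IsProbabilityMeasure lam] (S : Finset Vx) :
    MeasurePreserving (tB S) (PB lam) (PB lam) :=
  (MeasurePreserving.id (PP lam)).prod (mp_vx (indV S))

theorem mp_shT (u : Vx) : MeasurePreserving (shT u) PT PT := by
  refine ⟨measurable_pi_lambda _ fun v => measurable_pi_apply (v + u), ?_⟩
  exact Measure.map_infinitePi_infinitePi_of_inj (P := fun _ : Vx => coin) (add_left_injective u)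

theorem mp_shB (lam : Measure ℝ) [IsProbabilityMeasure lam] (u : Vx) :
    MeasurePreserving (shB u) (PB lam) (PB lam) :=
  (mp_sh lam u).prod (mp_shT u)

/-! ### transfer of null sets -/

variable {lam : Measure ℝ} {Cn : WT → Set (Ed → Bool)} {Q : Measure XX}

theorem ctC_eq_zero {D : Set XX} {b : WT}
    (h : ∀ U ∈ Cn b, ∀ U' ∈ Cn b, U ≠ U' → (b.1, U, U') ∉ D) : ctC Cn D b = 0 := by
  unfold ctC
  have : {q : (Ed → Bool) × (Ed → Bool) | q.1 ∈ Cn b ∧ q.2 ∈ Cn b ∧ q.1 ≠ q.2 ∧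
    (b.1, q.1, q.2) ∈ D} = ∅ := by
    ext q
    simp only [Set.mem_ofPred_eq, Set.mem_empty_iff_false, iff_false]
    rintro ⟨h1, h2, h3, h4⟩
    exact h q.1 h1 q.2 h2 h3 h4
  rw [this, Set.ncard_empty]
  simp

theorem finite_two {b : WT} (hb : (Cn b).ncard = 2) : (Cn b).Finite :=
  Set.finite_of_ncard_ne_zero (by rw [hb]; decide)

theorem finite_pairs {b : WT} (hb : (Cn b).ncard = 2) (D : Set XX) :
    {q : (Ed → Bool) × (Ed → Bool) | q.1 ∈ Cn b ∧ q.2 ∈ Cn b ∧ q.1 ≠ q.2 ∧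
      (b.1, q.1, q.2) ∈ D}.Finite := by
  have hf := finite_two hb
  exact (hf.prod hf).subset fun q hq => ⟨hq.1, hq.2.1⟩

theorem one_le_ctC {D : Set XX} {b : WT} (hb : (Cn b).ncard = 2) {U U' : Ed → Bool}
    (hU : U ∈ Cn b) (hU' : U' ∈ Cn b) (hne : U ≠ U') (h : (b.1, U, U') ∈ D) : 1 ≤ ctC Cn D b := by
  unfold ctC
  have h1 : (U, U') ∈ {q : (Ed → Bool) × (Ed → Bool) | q.1 ∈ Cn b ∧ q.2 ∈ Cn b ∧ q.1 ≠ q.2 ∧
      (b.1, q.1, q.2) ∈ D} := ⟨hU, hU', hne, h⟩
  have h2 := (Set.ncard_pos (finite_pairs hb D)).2 ⟨_, h1⟩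
  exact_mod_cast h2

theorem of_ctC_eq_zero {D : Set XX} {b : WT} (hb : (Cn b).ncard = 2) (h : ctC Cn D b = 0)
    {U U' : Ed → Bool} (hU : U ∈ Cn b) (hU' : U' ∈ Cn b) (hne : U ≠ U') : (b.1, U, U') ∉ D := by
  intro hD
  have := one_le_ctC hb hU hU' hne hD
  rw [h] at this
  exact absurd this (by simp)

theorem null_iff (h : HC lam Cn Q) {D : Set XX} (hD : MeasurableSet D) :
    Q D = 0 ↔ ∀ᵐ b ∂(PB lam), ctC Cn D b = 0 := by
  obtain ⟨c, hc, -, hcnt⟩ := h.cnt
  rw [hcnt D hD, mul_eq_zero, or_iff_right hc, lintegral_eq_zero_iff' (h.cntm D hD)]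
  rfl

theorem ae_all (h : HC lam Cn Q) {D : Set XX} (hD : MeasurableSet D) (h0 : Q D = 0) :
    ∀ᵐ b ∂(PB lam), ∀ U ∈ Cn b, ∀ U' ∈ Cn b, U ≠ U' → (b.1, U, U') ∉ D := by
  rw [null_iff h hD] at h0
  filter_upwards [h0, h.two] with b h1 h2 U hU U' hU' hne
  exact of_ctC_eq_zero h2.2.2.1 h1 hU hU' hne

theorem ae_all' (h : HC lam Cn Q) {P : XX → Prop} (hP : ∀ᵐ p ∂Q, P p) :
    ∀ᵐ b ∂(PB lam), ∀ U ∈ Cn b, ∀ U' ∈ Cn b, U ≠ U' → P (b.1, U, U') := by
  obtain ⟨N, hN, hNm, hN0⟩ := exists_measurable_superset_of_null (ae_iff.1 hP)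
  filter_upwards [ae_all h hNm hN0] with b hb U hU U' hU' hne
  by_contra hc
  exact hb U hU U' hU' hne (hN hc)

theorem ae_of_all (h : HC lam Cn Q) {D : Set XX} (hD : MeasurableSet D)
    (h0 : ∀ᵐ b ∂(PB lam), ∀ U ∈ Cn b, ∀ U' ∈ Cn b, U ≠ U' → (b.1, U, U') ∉ D) : Q D = 0 := by
  rw [null_iff h hD]
  filter_upwards [h0] with b hb
  exact ctC_eq_zero hb

theorem bw_eq {b : WT} {U : Ed → Bool} (hU : U ∈ GS b.1 b.2) (U' : Ed → Bool) :
    bw (b.1, U, U') = b := by
  unfold bw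
  exact Prod.ext rfl (funext hU.1)

theorem ae_bw (h : HC lam Cn Q) {P : WT → Prop} (hP : ∀ᵐ b ∂(PB lam), P b) :
    ∀ᵐ p ∂Q, P (bw p) := by
  obtain ⟨N, hN, hNm, hN0⟩ := exists_measurable_superset_of_null (ae_iff.1 hP)
  have h1 : Q (bw ⁻¹' N) = 0 := by
    refine ae_of_all h (measurable_bw hNm) ?_
    have h2 : ∀ᵐ b ∂(PB lam), b ∉ N := by
      rw [ae_iff]
      simpa using hN0
    filter_upwards [h2, h.two] with b hb ht U hU U' hU' hne hc
    have h3 : bw (b.1, U, U') ∈ N := hc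
    rw [bw_eq (ht.2.2.2 hU)] at h3
    exact hb h3
  rw [ae_iff]
  exact measure_mono_null (fun p hp => hN hp) h1

theorem measurableSet_mem1 (h : HC lam Cn Q) : MeasurableSet {p : XX | p.2.1 ∈ Cn (bw p)} :=
  (measurable_bw.prodMk (measurable_fst.comp measurable_snd)) h.meas

theorem measurableSet_mem2 (h : HC lam Cn Q) : MeasurableSet {p : XX | p.2.2 ∈ Cn (bw p)} :=
  (measurable_bw.prodMk (measurable_snd.comp measurable_snd)) h.meas

theorem ae_mem (h : HC lam Cn Q) : ∀ᵐ p ∂Q, p.2.1 ∈ Cn (bw p) ∧ p.2.2 ∈ Cn (bw p) := by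
  have h1 : Q {p : XX | p.2.1 ∈ Cn (bw p)}ᶜ = 0 := by
    refine ae_of_all h (measurableSet_mem1 h).compl ?_
    filter_upwards [h.two] with b ht U hU U' hU' hne hc
    apply hc
    show U ∈ Cn (bw (b.1, U, U'))
    rw [bw_eq (ht.2.2.2 hU)]
    exact hU
  have h2 : Q {p : XX | p.2.2 ∈ Cn (bw p)}ᶜ = 0 := by
    refine ae_of_all h (measurableSet_mem2 h).compl ?_
    filter_upwards [h.two] with b ht U hU U' hU' hne hc
    apply hc
    show U' ∈ Cn (bw (b.1, U, U'))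
    rw [bw_eq (ht.2.2.2 hU)]
    exact hU'
  filter_upwards [compl_mem_ae_iff.2 h1, compl_mem_ae_iff.2 h2] with p h3 h4
  exact ⟨not_not.1 h3, not_not.1 h4⟩

/-- a set of base points over which a pair is in `D` -/
theorem ex_le (h : HC lam Cn Q) : ∃ c : ENNReal, c ≠ 0 ∧ c ≤ 1 ∧ ∀ D : Set XX, MeasurableSet D →
    c * PB lam {b | ∃ U ∈ Cn b, ∃ U' ∈ Cn b, U ≠ U' ∧ (b.1, U, U') ∈ D} ≤ Q D := by
  obtain ⟨c, hc, hc1, hcnt⟩ := h.cnt
  refine ⟨c, hc, hc1, fun D hD => ?_⟩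
  have h1 : PB lam {b | ∃ U ∈ Cn b, ∃ U' ∈ Cn b, U ≠ U' ∧ (b.1, U, U') ∈ D}
      ≤ PB lam {b | 1 ≤ ctC Cn D b} := by
    apply measure_mono_ae
    filter_upwards [h.two] with b hb hx
    obtain ⟨U, hU, U', hU', hne, hm⟩ := hx
    exact one_le_ctC hb.2.2.1 hU hU' hne hm
  have h2 := mul_meas_ge_le_lintegral₀ (h.cntm D hD) 1
  rw [one_mul] at h2
  rw [hcnt D hD]
  exact mul_le_mul_right (h1.trans h2) c

theorem nonempty_pair {b : WT} (hb : (Cn b).ncard = 2) :
    ∃ U ∈ Cn b, ∃ U' ∈ Cn b, U ≠ U' ∧ Cn b = {U, U'} := by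
  obtain ⟨U, U', hne, hE⟩ := Set.ncard_eq_two.1 hb
  exact ⟨U, by rw [hE]; simp, U', by rw [hE]; simp, hne, hE⟩

theorem Q_ne_zero [IsProbabilityMeasure lam] (h : HC lam Cn Q) : Q ≠ 0 := by
  intro hQ
  have h1 : ∀ᵐ b ∂(PB lam), ∀ U ∈ Cn b, ∀ U' ∈ Cn b, U ≠ U' → (b.1, U, U') ∉ Set.univ :=
    ae_all h MeasurableSet.univ (by rw [hQ]; rfl)
  have h2 : ∀ᵐ b ∂(PB lam), False := by
    filter_upwards [h1, h.two] with b hb ht
    obtain ⟨U, hU, U', hU', hne, -⟩ := nonempty_pair ht.2.2.1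
    exact hb U hU U' hU' hne trivial
  have h3 : (PB lam) Set.univ = 0 := by
    have := ae_iff.1 h2
    simp at this
  rw [measure_univ] at h3
  exact one_ne_zero h3

end Pool.Agent.Helper83.MMS
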