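import Pool.Agent.Helper83.MM.Base
import Pool.Agent.Helper42.EA.ZeroOne
import Mathlib.Dynamics.Ergodic.Ergodic

set_option autoImplicit false

/-!
# The translations of the plane act ergodically on weights and frustrated plaquettes
-/

open MeasureTheory ProbabilityTheory Filter Topology
open scoped symmDiff

namespace Pool.Agent.Helper83.MMS

open Pool.Agent.Helper60.TJ Pool.Agent.Helper61.MM

/-- one field for edges and plaquettes -/
abbrev FI := Ed ⊕ Vx

/-- projection of the field -/
def phi (ξ : FI → ℝ × Bool) : WT := (fun e => (ξ (Sum.inl e)).1, fun v => (ξ (Sum.inr v)).2)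

theorem measurable_phi : Measurable phi :=
  (measurable_pi_lambda _ fun _ => measurable_fst.comp (measurable_pi_apply _)).prodMk
    (measurable_pi_lambda _ fun _ => measurable_snd.comp (measurable_pi_apply _))

theorem map_phi (lam : Measure ℝ) [IsProbabilityMeasure lam] :
    (Pool.Agent.Helper42.EA.iid (lam.prod coin) FI).map phi = PB lam := by
  set P := Pool.Agent.Helper42.EA.iid (lam.prod coin) FI with hP
  have hm1 : Measurable fun ξ : FI → ℝ × Bool => fun e : Ed => (ξ (Sum.inl e)).1 :=
    measurable_pi_lambda _ fun e => measurable_fst.comp (measurable_pi_apply _)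
  have hm2 : Measurable fun ξ : FI → ℝ × Bool => fun v : Vx => (ξ (Sum.inr v)).2 :=
    measurable_pi_lambda _ fun e => measurable_snd.comp (measurable_pi_apply _)
  have h1 : iIndepFun (fun (i : FI) (ω : FI → ℝ × Bool) => ω i) P :=
    iIndepFun_infinitePi (P := fun _ : FI => lam.prod coin) (X := fun _ ω => ω)
      (fun _ => measurable_id)
  have h2 : Indep (⨆ i ∈ Set.range (Sum.inl : Ed → FI),
      MeasurableSpace.comap (fun ω : FI → ℝ × Bool => ω i) inferInstance)
      (⨆ i ∈ Set.range (Sum.inr : Vx → FI),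
      MeasurableSpace.comap (fun ω : FI → ℝ × Bool => ω i) inferInstance) P := by
    refine indep_iSup_of_disjoint (fun i => (measurable_pi_apply i).comap_le) h1 ?_
    rw [Set.disjoint_left]
    rintro _ ⟨e, rfl⟩ ⟨v, hv⟩
    exact absurd hv (by simp)
  have h3 : IndepFun (fun ξ : FI → ℝ × Bool => fun e : Ed => (ξ (Sum.inl e)).1)
      (fun ξ : FI → ℝ × Bool => fun v : Vx => (ξ (Sum.inr v)).2) P := by
    rw [IndepFun_iff_Indep]
    refine indep_of_indep_of_le_left (indep_of_indep_of_le_right h2 ?_) ?_
    · refine Measurable.comap_le ?_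
      refine @measurable_pi_lambda _ _ _ (_) _ _ fun v => ?_
      have e1 : @Measurable _ _ (⨆ i ∈ Set.range (Sum.inr : Vx → FI),
          MeasurableSpace.comap (fun ω : FI → ℝ × Bool => ω i) inferInstance) _
          (fun ω : FI → ℝ × Bool => ω (Sum.inr v)) := by
        rw [measurable_iff_comap_le]
        exact le_iSup₂_of_le (Sum.inr v) ⟨v, rfl⟩ le_rfl
      exact measurable_snd.comp e1
    · refine Measurable.comap_le ?_
      refine @measurable_pi_lambda _ _ _ (_) _ _ fun v => ?_
      have e1 : @Measurable _ _ (⨆ i ∈ Set.range (Sum.inl : Ed → FI),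
          MeasurableSpace.comap (fun ω : FI → ℝ × Bool => ω i) inferInstance) _
          (fun ω : FI → ℝ × Bool => ω (Sum.inl v)) := by
        rw [measurable_iff_comap_le]
        exact le_iSup₂_of_le (Sum.inl v) ⟨v, rfl⟩ le_rfl
      exact measurable_fst.comp e1
  have h4 := (indepFun_iff_map_prod_eq_prod_map_map hm1.aemeasurable hm2.aemeasurable).1 h3
  have h5 : P.map (fun ξ : FI → ℝ × Bool => fun e : Ed => (ξ (Sum.inl e)).1) = PP lam := by
    have e1 := Measure.map_infinitePi_infinitePi_of_inj (P := fun _ : FI => lam.prod coin)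
      (Sum.inl_injective : Function.Injective (Sum.inl : Ed → FI))
    have e2 := Measure.infinitePi_map_pi (μ := fun _ : Ed => lam.prod coin)
      (f := fun (_ : Ed) (x : ℝ × Bool) => x.1) (fun _ => measurable_fst)
    have e3 : (lam.prod coin).map (fun x : ℝ × Bool => x.1) = lam := by
      have := Measure.map_fst_prod (μ := lam) (ν := coin)
      rw [measure_univ, one_smul] at this
      exact this
    rw [e3] at e2
    have m1 : Measurable fun x : Ed → ℝ × Bool => fun i : Ed => (x i).1 :=
      measurable_pi_lambda _ fun e => measurable_fst.comp (measurable_pi_apply e)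
    have m2 : Measurable fun ω : FI → ℝ × Bool => fun i : Ed => ω (Sum.inl i) :=
      measurable_pi_lambda _ fun e => measurable_pi_apply _
    rw [← e1, Measure.map_map m1 m2] at e2
    exact e2
  have h6 : P.map (fun ξ : FI → ℝ × Bool => fun v : Vx => (ξ (Sum.inr v)).2) = PT := by
    have e1 := Measure.map_infinitePi_infinitePi_of_inj (P := fun _ : FI => lam.prod coin)
      (Sum.inr_injective : Function.Injective (Sum.inr : Vx → FI))
    have e2 := Measure.infinitePi_map_pi (μ := fun _ : Vx => lam.prod coin)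
      (f := fun (_ : Vx) (x : ℝ × Bool) => x.2) (fun _ => measurable_snd)
    have e3 : (lam.prod coin).map (fun x : ℝ × Bool => x.2) = coin := by
      have := Measure.map_snd_prod (μ := lam) (ν := coin)
      rw [measure_univ, one_smul] at this
      exact this
    rw [e3] at e2
    have m1 : Measurable fun x : Vx → ℝ × Bool => fun i : Vx => (x i).2 :=
      measurable_pi_lambda _ fun e => measurable_snd.comp (measurable_pi_apply e)
    have m2 : Measurable fun ω : FI → ℝ × Bool => fun i : Vx => ω (Sum.inr i) :=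
      measurable_pi_lambda _ fun e => measurable_pi_apply _
    rw [← e1, Measure.map_map m1 m2] at e2
    exact e2
  rw [h5, h6] at h4
  exact h4

/-- shift of the indices -/
def shF (u : Vx) : Equiv.Perm FI :=
  Equiv.sumCongr ((Equiv.addRight u).prodCongr (Equiv.refl Bool)) (Equiv.addRight u)

theorem phi_shF (u : Vx) (ξ : FI → ℝ × Bool) : phi (fun i => ξ (shF u i)) = shB u (phi ξ) := rfl

theorem exists_move (F : Finset FI) : ∃ n : ℕ, ∀ i ∈ F, shF (n • ((1, 0) : Vx)) i ∉ F := by
  classical
  -- first coordinate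
  let c : FI → ℤ := fun i => Sum.elim (fun e : Ed => e.1.1) (fun v : Vx => v.1) i
  have hc : ∀ (n : ℕ) (i : FI), c (shF (n • ((1, 0) : Vx)) i) = c i + n := by
    intro n i
    rcases i with e | v
    · show e.1.1 + (n • ((1, 0) : Vx)).1 = e.1.1 + n
      simp
    · show v.1 + (n • ((1, 0) : Vx)).1 = v.1 + n
      simp
  obtain ⟨M, hM⟩ := (F.finite_toSet.image c).bddAbove
  obtain ⟨m, hm⟩ := (F.finite_toSet.image c).bddBelow
  refine ⟨(M - m).toNat + 1, fun i hi hc' => ?_⟩
  have h1 := hM ⟨_, hc', rfl⟩
  have h2 := hm ⟨i, hi, rfl⟩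
  simp only [hc] at h1
  push_cast at h1
  omega

theorem shB_shB (u v : Vx) (b : WT) : shB u (shB v b) = shB (u + v) b := by
  refine Prod.ext ?_ ?_
  · exact sh_sh u v b.1
  · funext x
    show b.2 (x + u + v) = b.2 (x + (u + v))
    rw [add_assoc]

theorem shB_zero (b : WT) : shB 0 b = b := by
  refine Prod.ext (sh_zero b.1) ?_
  funext x
  show b.2 (x + 0) = b.2 x
  rw [add_zero]

/-- ergodicity -/
theorem ergodic_shB (lam : Measure ℝ) [IsProbabilityMeasure lam] :
    Ergodic (shB (1, 0)) (PB lam) := by
  refine { mp_shB lam (1, 0) with aeconst_set := ?_ }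
  intro S hS hinv
  have h1 : ∀ b, shB (1, 0) b ∈ S ↔ b ∈ S := fun b => by
    have := congrArg (fun T : Set WT => b ∈ T) hinv
    exact iff_of_eq this
  have h2 : ∀ (n : ℕ) b, shB (n • ((1, 0) : Vx)) b ∈ S ↔ b ∈ S := by
    intro n
    induction n with
    | zero => intro b; rw [zero_smul, shB_zero]
    | succ n ih =>
      intro b
      rw [succ_nsmul, add_comm, ← shB_shB, h1, ih]
  have h3 := Pool.Agent.Helper42.EA.zero_one (lam.prod coin) (S := phi ⁻¹' S) (measurable_phi hS)
    (fun F => by
      obtain ⟨n, hn⟩ := exists_move F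
      refine ⟨shF (n • ((1, 0) : Vx)), hn, fun ξ => ?_⟩
      show phi (fun i => ξ (shF (n • ((1, 0) : Vx)) i)) ∈ S ↔ phi ξ ∈ S
      rw [phi_shF, h2])
  rw [← Measure.map_apply measurable_phi hS, map_phi] at h3
  rcases h3 with h3 | h3
  · exact Filter.eventuallyConst_set'.2 (Or.inl (ae_eq_empty.2 h3))
  · refine Filter.eventuallyConst_set'.2 (Or.inr ?_)
    rw [ae_eq_univ]
    exact (prob_compl_eq_zero_iff hS).2 h3

end Pool.Agent.Helper83.MMS
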