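import Pool.Agent.Helper83.MM.Base

set_option autoImplicit false

/-!
# Far toggles are not seen
-/

open MeasureTheory ProbabilityTheory Filter Topology
open scoped symmDiff

namespace Pool.Agent.Helper83.MMS

open Pool.Agent.Helper60.TJ Pool.Agent.Helper61.MM

/-- a set which depends on the weights and on finitely many plaquettes -/
def LocV (G : Finset Vx) (B : Set WT) : Prop :=
  ∀ b b' : WT, b.1 = b'.1 → (∀ v ∈ G, b.2 v = b'.2 v) → (b ∈ B ↔ b' ∈ B)

theorem LocV.mono {G G' : Finset Vx} {B : Set WT} (h : LocV G B) (hG : G ⊆ G') : LocV G' B :=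
  fun b b' h1 h2 => h b b' h1 fun v hv => h2 v (hG hv)

/-- the algebra of these sets -/
def LocW : Set (Set WT) := {B | MeasurableSet B ∧ ∃ G, LocV G B}

theorem isSetAlgebra_LocW : IsSetAlgebra LocW := by
  refine ⟨⟨MeasurableSet.empty, ∅, fun _ _ _ _ => Iff.rfl⟩, ?_, ?_⟩
  · rintro B ⟨h1, F, h2⟩
    exact ⟨h1.compl, F, fun z z' h3 h4 => not_congr (h2 z z' h3 h4)⟩
  · rintro B B' ⟨h1, F, h2⟩ ⟨h1', F', h2'⟩
    classical
    refine ⟨h1.union h1', F ∪ F', fun z z' h3 h4 => ?_⟩
    have e1 := h2.mono (Finset.subset_union_left (s₂ := F')) z z' h3 h4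
    have e2 := h2'.mono (Finset.subset_union_right (s₁ := F)) z z' h3 h4
    exact or_congr e1 e2

theorem generateFrom_LocW :
    (inferInstance : MeasurableSpace WT) = MeasurableSpace.generateFrom LocW := by
  apply le_antisymm
  · have h1 : @Measurable WT (Ed → ℝ) (MeasurableSpace.generateFrom LocW) _ (fun z => z.1) := by
      intro t ht
      apply MeasurableSpace.measurableSet_generateFrom
      refine ⟨measurable_fst ht, ∅, fun z z' h _ => ?_⟩
      simp only [Set.mem_preimage, h]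
    have hv : ∀ v, @Measurable WT Bool (MeasurableSpace.generateFrom LocW) _ (fun z => z.2 v) := by
      intro v t ht
      apply MeasurableSpace.measurableSet_generateFrom
      refine ⟨((measurable_pi_apply v).comp measurable_snd : Measurable fun z : WT => z.2 v) ht,
        {v}, fun z z' _ h => ?_⟩
      have := h v (Finset.mem_singleton_self v)
      simp only [Set.mem_preimage, this]
    have h2 : @Measurable WT (Vx → Bool) (MeasurableSpace.generateFrom LocW) _ (fun z => z.2) :=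
      @measurable_pi_lambda _ _ _ (MeasurableSpace.generateFrom LocW) _ _ hv
    have h3 : @Measurable WT WT (MeasurableSpace.generateFrom LocW) _ (fun z => z) := h1.prodMk h2
    intro t ht
    exact h3 ht
  · exact MeasurableSpace.generateFrom_le fun t ht => ht.1

/-- approximation -/
theorem exists_locV (P : Measure WT) [IsFiniteMeasure P] {A : Set WT} (hA : MeasurableSet A)
    {ε : ℝ} (hε : 0 < ε) :
    ∃ B, MeasurableSet B ∧ (∃ G, LocV G B) ∧ P (A ∆ B) < ENNReal.ofReal ε := by
  have hdense : P.MeasureDense LocW := by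
    apply Measure.MeasureDense.of_generateFrom_isSetAlgebra_finite
    · exact isSetAlgebra_LocW
    · exact generateFrom_LocW
  obtain ⟨B, hB, hAB⟩ := hdense.approx A hA (measure_ne_top _ _) ε hε
  exact ⟨B, hB.1, hB.2, hAB⟩

/-- a far toggle is not seen by a given event -/
theorem far_set (lam : Measure ℝ) [IsProbabilityMeasure lam] {S : Set WT} (hS : MeasurableSet S)
    {ε : ℝ} (hε : 0 < ε) :
    ∃ G : Finset Vx, ∀ v ∉ G, PB lam {b | ¬ (tB {v} b ∈ S ↔ b ∈ S)} ≤ ENNReal.ofReal ε := by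
  obtain ⟨B, hBm, ⟨G, hB⟩, hAB⟩ := exists_locV (PB lam) hS (half_pos hε)
  refine ⟨G, fun v hv => ?_⟩
  have hm : MeasurableSet (S ∆ B) := hS.symmDiff hBm
  have h1 : PB lam {b | tB {v} b ∈ S ∆ B} = PB lam (S ∆ B) :=
    (mp_tB lam {v}).measure_preimage hm.nullMeasurableSet
  have hsub : {b | ¬ (tB {v} b ∈ S ↔ b ∈ S)} ⊆ {b | tB {v} b ∈ S ∆ B} ∪ (S ∆ B) := by
    intro b hb
    by_contra hcon
    rw [Set.mem_union, not_or] at hcon
    obtain ⟨c1, c2⟩ := hcon
    apply hb
    have c3 : tB {v} b ∈ B ↔ b ∈ B := by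
      refine hB _ _ rfl fun x hx => ?_
      show xor (b.2 x) (indV {v} x) = b.2 x
      have : indV {v} x = false := by
        unfold indV
        have : x ≠ v := fun h => hv (h ▸ hx)
        simp [this]
      rw [this, Bool.xor_false]
    have c1' : ¬ (tB {v} b ∈ S ∆ B) := c1
    rw [Set.mem_symmDiff] at c1' c2
    tauto
  calc PB lam {b | ¬ (tB {v} b ∈ S ↔ b ∈ S)} ≤ PB lam ({b | tB {v} b ∈ S ∆ B} ∪ (S ∆ B)) :=
        measure_mono hsub
    _ ≤ PB lam {b | tB {v} b ∈ S ∆ B} + PB lam (S ∆ B) := measure_union_le _ _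
    _ ≤ ENNReal.ofReal (ε / 2) + ENNReal.ofReal (ε / 2) := by
        rw [h1]
        exact add_le_add hAB.le hAB.le
    _ = ENNReal.ofReal ε := by
        rw [← ENNReal.ofReal_add (half_pos hε).le (half_pos hε).le, add_halves]

/-! ### patterns -/

variable {lam : Measure ℝ} {Cn : WT → Set (Ed → Bool)} {Q : Measure XX}

/-- the first T-join has the pattern `A` on `F` -/
def DF (F A : Finset Ed) : Set XX := {p | ∀ e ∈ F, p.2.1 e = ind A e}

theorem measurableSet_DF (F A : Finset Ed) : MeasurableSet (DF F A) := by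
  have : DF F A = ⋂ e ∈ F, {p : XX | p.2.1 e = ind A e} := by
    ext p; simp [DF]
  rw [this]
  refine MeasurableSet.biInter (Set.to_countable _) fun e _ => ?_
  exact measurableSet_eq_fun ((measurable_pi_apply e).comp (measurable_fst.comp measurable_snd))
    measurable_const

/-- some canonical T-join has the pattern `A` on `F` (measurable version) -/
noncomputable def SF (lam : Measure ℝ) (Cn : WT → Set (Ed → Bool)) (F A : Finset Ed) : Set WT :=
  toMeasurable (PB lam) {b | ctC Cn (DF F A) b ≠ 0}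

theorem measurableSet_SF (F A : Finset Ed) : MeasurableSet (SF lam Cn F A) :=
  measurableSet_toMeasurable _ _

theorem ae_SF (h : HC lam Cn Q) (F A : Finset Ed) :
    ∀ᵐ b ∂(PB lam), (b ∈ SF lam Cn F A ↔ ∃ Z ∈ Cn b, ∀ e ∈ F, Z e = ind A e) := by
  have hSm : NullMeasurableSet {b | ctC Cn (DF F A) b ≠ 0} (PB lam) :=
    (h.cntm _ (measurableSet_DF F A)).nullMeasurable
      (measurableSet_singleton (0 : ENNReal)).compl
  filter_upwards [hSm.toMeasurable_ae_eq, h.two] with b hb ht
  have h1 : b ∈ SF lam Cn F A ↔ ctC Cn (DF F A) b ≠ 0 := iff_of_eq hb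
  rw [h1]
  constructor
  · intro hne
    by_contra hc
    push Not at hc
    apply hne
    apply ctC_eq_zero
    intro U hU U' _ _ hD
    obtain ⟨e, he, hne'⟩ := hc U hU
    exact hne' (hD e he)
  · rintro ⟨Z, hZ, hZF⟩ h0
    obtain ⟨U, hU, U', hU', hne, hE⟩ := nonempty_pair ht.2.2.1
    rw [hE] at hZ
    rcases hZ with rfl | hZ
    · exact of_ctC_eq_zero ht.2.2.1 h0 hU hU' hne hZF
    · rw [Set.mem_singleton_iff] at hZ
      subst hZ
      exact of_ctC_eq_zero ht.2.2.1 h0 hU' hU hne.symm hZF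

/-- the canonical T-joins after a far toggle have the same patterns, with high probability -/
theorem far_SF [IsProbabilityMeasure lam] (F : Finset Ed) {ε : ℝ} (hε : 0 < ε) :
    ∃ G : Finset Vx, ∀ v ∉ G, PB lam {b | ∃ A ∈ F.powerset,
      ¬ (tB {v} b ∈ SF lam Cn F A ↔ b ∈ SF lam Cn F A)} ≤ ENNReal.ofReal ε := by
  classical
  set n := (F.powerset.card : ℝ) with hn
  have hn0 : 0 < n := by
    rw [hn]
    exact_mod_cast Finset.card_pos.2 ⟨∅, Finset.empty_mem_powerset F⟩
  choose G hG using fun A : Finset Ed =>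
    far_set lam (measurableSet_SF (lam := lam) (Cn := Cn) F A) (div_pos hε hn0)
  refine ⟨F.powerset.biUnion G, fun v hv => ?_⟩
  have hsub : {b | ∃ A ∈ F.powerset, ¬ (tB {v} b ∈ SF lam Cn F A ↔ b ∈ SF lam Cn F A)} ⊆
      ⋃ A ∈ F.powerset, {b | ¬ (tB {v} b ∈ SF lam Cn F A ↔ b ∈ SF lam Cn F A)} := by
    rintro b ⟨A, hA, hb⟩
    exact Set.mem_biUnion hA hb
  calc _ ≤ PB lam (⋃ A ∈ F.powerset, {b | ¬ (tB {v} b ∈ SF lam Cn F A ↔ b ∈ SF lam Cn F A)}) :=
        measure_mono hsub
    _ ≤ ∑ A ∈ F.powerset, PB lam {b | ¬ (tB {v} b ∈ SF lam Cn F A ↔ b ∈ SF lam Cn F A)} :=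
        measure_biUnion_finset_le _ _
    _ ≤ ∑ _A ∈ F.powerset, ENNReal.ofReal (ε / n) := by
        refine Finset.sum_le_sum fun A hA => hG A v fun hc => hv ?_
        exact Finset.mem_biUnion.2 ⟨A, hA, hc⟩
    _ = ENNReal.ofReal ε := by
        rw [Finset.sum_const, nsmul_eq_mul, ← ENNReal.ofReal_natCast,
          ← ENNReal.ofReal_mul (Nat.cast_nonneg _)]
        congr 1
        rw [← hn]
        field_simp

end Pool.Agent.Helper83.MMS
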