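import Pool.Agent.Helper83.MM.LocB
import Pool.Agent.Helper83.MM.Loc
import Mathlib.MeasureTheory.Integral.Indicator

set_option autoImplicit false

/-!
# Canonical pairs: admissible points have positive measure
-/

open MeasureTheory ProbabilityTheory Filter Topology
open scoped symmDiff

namespace Pool.Agent.Helper83.MMS

open Pool.Agent.Helper60.TJ Pool.Agent.Helper61.MM

variable {lam : Measure ℝ} {Cn : WT → Set (Ed → Bool)} {Q : Measure XX}

/-- after the toggle the canonical T-joins have on `F` the patterns of `Zj` and `Zk` -/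
def HF (lam : Measure ℝ) (Cn : WT → Set (Ed → Bool)) (F : Finset Ed) : Set YY :=
  {y | (GY y ∧ CW y) ∧ ∀ A ∈ F.powerset, (t0 (bw y.1) ∈ SF lam Cn F A ↔
    (∀ e ∈ F, Zj y e = ind A e) ∨ ∀ e ∈ F, Zk y e = ind A e)}

private theorem mset {α : Type*} [MeasurableSpace α] {p : α → Prop} (h : Measurable p) :
    MeasurableSet {a | p a} := measurableSet_setOfPred.2 h

private theorem mprop {α : Type*} [MeasurableSpace α] {p : α → Prop} (h : MeasurableSet {a | p a}) :
    Measurable p := measurableSet_setOfPred.1 h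

private theorem m_pat {Z : YY → Ed → Bool} (hZ : Measurable Z) (F A : Finset Ed) :
    Measurable fun y : YY => ∀ e ∈ F, Z y e = ind A e := by
  refine Measurable.forall fun e => Measurable.imp measurable_const ?_
  exact mprop (measurableSet_eq_fun ((measurable_pi_apply e).comp hZ) measurable_const)

theorem measurableSet_HF (F : Finset Ed) : MeasurableSet (HF lam Cn F) := by
  refine (measurableSet_GY.inter measurableSet_CW).inter (mset ?_)
  refine Measurable.forall fun A => Measurable.imp measurable_const ?_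
  refine Measurable.iff ?_ (Measurable.or (m_pat measurable_Zj F A) (m_pat measurable_Zk F A))
  exact mprop ((measurable_t0.comp measurable_bw1) (measurableSet_SF F A))

/-! ### from sets of the wall space to sets of pairs -/

/-- some wall direction at `0` is in `B` -/
def DB (B : Set YY) : Set XX := {p | ∃ d : Dir, wl p (edg 0 d) = true ∧ ((p, d) : YY) ∈ B}

theorem measurableSet_DB {B : Set YY} (hB : MeasurableSet B) : MeasurableSet (DB B) := by
  have : DB B = ⋃ d : Dir, {p : XX | wl p (edg 0 d) = true ∧ ((p, d) : YY) ∈ B} := by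
    ext p; simp [DB]
  rw [this]
  exact MeasurableSet.iUnion fun d => slice hB

theorem Q_DB_le {B : Set YY} (hB : MeasurableSet B) : Q (DB B) ≤ nuM Q B := by
  have : DB B = ⋃ d : Dir, {p : XX | wl p (edg 0 d) = true ∧ ((p, d) : YY) ∈ B} := by
    ext p; simp [DB]
  rw [this, nu_eq Q hB]
  exact measure_iUnion_fintype_le _ _

theorem ae_GYp (h : IsW lam Q) : ∀ᵐ p ∂Q, ∀ d, wl p (edg 0 d) = true → GY (p, d) := by
  have h1 : Q (DB {y | ¬ GY y}) = 0 := by
    refine le_antisymm ((Q_DB_le measurableSet_GY.compl).trans ?_) bot_le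
    exact le_of_eq h.ae_GY
  have h2 : ∀ᵐ p ∂Q, p ∉ DB {y | ¬ GY y} := by
    rw [ae_iff]
    simpa using h1
  filter_upwards [h2] with p hp d hd
  by_contra hc
  exact hp ⟨d, hd, hc⟩

/-! ### the segment between two far wall points -/

theorem mem_bx {L : ℕ} {v : Vx} :
    v ∈ box L ↔ (-(L : ℤ) ≤ v.1 ∧ v.1 ≤ L) ∧ (-(L : ℤ) ≤ v.2 ∧ v.2 ≤ L) := by
  simp [box]

theorem pos_box {y : YY} (n : ℕ) : pos y n ∈ box n := by
  induction n with
  | zero =>
    rw [mem_bx]
    simp [pos]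
  | succ n ih =>
    rw [mem_bx] at ih ⊢
    have hs : ∀ d : Dir, (-1 ≤ (stp d).1 ∧ (stp d).1 ≤ 1) ∧ (-1 ≤ (stp d).2 ∧ (stp d).2 ≤ 1) := by
      decide
    have h1 := hs (Th^[n] y).2
    show (-((n + 1 : ℕ) : ℤ) ≤ (pos y n + stp ((Th^[n] y).2)).1 ∧
      (pos y n + stp ((Th^[n] y).2)).1 ≤ ((n + 1 : ℕ) : ℤ)) ∧
      (-((n + 1 : ℕ) : ℤ) ≤ (pos y n + stp ((Th^[n] y).2)).2 ∧
      (pos y n + stp ((Th^[n] y).2)).2 ≤ ((n + 1 : ℕ) : ℤ))
    rw [Prod.fst_add, Prod.snd_add]
    push_cast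
    omega

theorem lt_of_pos_notMem {y : YY} {n N : ℕ} (h : pos y n ∉ box N) : N < n := by
  by_contra hc
  push Not at hc
  apply h
  have h1 := pos_box (y := y) n
  rw [mem_bx] at h1 ⊢
  have : (n : ℤ) ≤ N := by exact_mod_cast hc
  omega

/-- near `0` a long segment is a half wall -/
theorem seg_hp {y : YY} (h : GY y) {F : Finset Ed} {N n : ℕ} (hF : y ∉ Far F N) (hn : N < n)
    {e : Ed} (he : e ∈ F) : ind (seg y n) e = hp y e := by
  rw [Bool.eq_iff_iff, hp_true]
  unfold ind seg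
  rw [decide_eq_true_iff, Finset.mem_image]
  constructor
  · rintro ⟨m, -, hm⟩
    exact ⟨m, hm.symm⟩
  · rintro ⟨m, hm⟩
    refine ⟨m, ?_, hm.symm⟩
    rw [Finset.mem_range]
    by_contra hc
    apply hF
    refine ⟨m, ?_, ?_⟩
    · rw [abs_of_nonneg (by positivity)]
      have : N ≤ m := by omega
      exact_mod_cast this
    · rw [wedgez_natCast h, ← hm]
      exact he

theorem seg_hp_rv {y : YY} (h : GY y) {F : Finset Ed} {N n : ℕ} (hF : y ∉ Far F N) (hn : N < n)
    {e : Ed} (he : e ∈ F) : ind (seg (rv y) n) e = hp (rv y) e := by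
  rw [Bool.eq_iff_iff, hp_true]
  unfold ind seg
  rw [decide_eq_true_iff, Finset.mem_image]
  constructor
  · rintro ⟨m, -, hm⟩
    exact ⟨m, hm.symm⟩
  · rintro ⟨m, hm⟩
    refine ⟨m, ?_, hm.symm⟩
    rw [Finset.mem_range]
    by_contra hc
    apply hF
    refine ⟨-(m : ℤ) - 1, ?_, ?_⟩
    · rw [le_abs]
      right
      omega
    · rw [← wedge_rv h, ← hm]
      exact he

theorem bx_inj {U V X : Ed → Bool} (h : bx U X = bx V X) : U = V := by
  funext e
  have := congrFun h e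
  unfold bx at this
  revert this
  cases U e <;> cases V e <;> cases X e <;> simp

theorem pair_eq {S : Set (Ed → Bool)} (hS : S.ncard = 2) {V V' : Ed → Bool} (h : V ∈ S)
    (h' : V' ∈ S) (hne : V ≠ V') : S = {V, V'} := by
  symm
  apply Set.eq_of_subset_of_ncard_le
  · intro A hA
    rcases hA with rfl | rfl
    · exact h
    · exact h'
  · rw [hS, Set.ncard_pair hne]
  · exact Set.finite_of_ncard_ne_zero (by rw [hS]; decide)

/-- patterns after the toggle of `0` and of a far wall point -/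
theorem key_pt {S : Set (Ed → Bool)} (hS : S.ncard = 2) {w : Ed → ℝ} {U U' : Ed → Bool} {d : Dir}
    {v : Vx} {F : Finset Ed} {N : ℕ} (hy : GY ((w, U, U'), d)) (hc : CW ((w, U, U'), d))
    (hv : v ∉ box N) (hF : ((w, U, U'), d) ∉ Far F N) (hne : U ≠ U') {X : Finset Ed}
    (hX : ∀ e ∈ X, bx U U' e = true) (hXp : par (ind X) = vx (dl 0) (dl v))
    (h1 : bx U (ind X) ∈ S) (h2 : bx U' (ind X) ∈ S) (A : Finset Ed) :
    (∃ Z ∈ S, ∀ e ∈ F, Z e = ind A e) ↔
      (∀ e ∈ F, Zj ((w, U, U'), d) e = ind A e) ∨ ∀ e ∈ F, Zk ((w, U, U'), d) e = ind A e := by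
  have hS2 : S = {bx U (ind X), bx U' (ind X)} :=
    pair_eq hS h1 h2 fun hh => hne (bx_inj hh)
  have key : (∃ Z ∈ S, ∀ e ∈ F, Z e = ind A e) ↔ (∀ e ∈ F, bx U (ind X) e = ind A e) ∨
      ∀ e ∈ F, bx U' (ind X) e = ind A e := by
    rw [hS2]
    constructor
    · rintro ⟨Z, hZ | hZ, hA⟩
      · left; rw [← hZ]; exact hA
      · right
        rw [Set.mem_singleton_iff] at hZ
        rw [← hZ]; exact hA
    · rintro (h | h)
      · exact ⟨_, Or.inl rfl, h⟩
      · exact ⟨_, Or.inr rfl, h⟩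
  rw [key]
  obtain ⟨n, ⟨hn, hvn⟩ | ⟨hn, hvn⟩⟩ := path_unique hy hX hXp
  · have hlt : N < n := lt_of_pos_notMem (by rw [← hvn]; exact hv)
    have e1 : ∀ e ∈ F, bx U (ind X) e = Zj ((w, U, U'), d) e := by
      intro e he
      have h3 := seg_hp hy hF hlt he
      rw [hn]
      show xor (U e) _ = xor (U e) _
      rw [h3]
    have e2 : ∀ e ∈ F, bx U' (ind X) e = Zk ((w, U, U'), d) e := by
      intro e he
      have h3 := seg_hp hy hF hlt he
      rw [hn]
      show xor (U' e) _ = xor (U' e) _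
      rw [h3]
    constructor
    · rintro (h | h)
      · left; intro e he; rw [← e1 e he]; exact h e he
      · right; intro e he; rw [← e2 e he]; exact h e he
    · rintro (h | h)
      · left; intro e he; rw [e1 e he]; exact h e he
      · right; intro e he; rw [e2 e he]; exact h e he
  · have hlt : N < n := lt_of_pos_notMem (by rw [← hvn]; exact hv)
    have e1 : ∀ e ∈ F, bx U (ind X) e = Zk ((w, U, U'), d) e := by
      intro e he
      have h3 := seg_hp_rv hy hF hlt he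
      rw [hn, ← Zj_rv hy hc]
      show xor (U e) _ = xor (U e) _
      rw [h3]
    have e2 : ∀ e ∈ F, bx U' (ind X) e = Zj ((w, U, U'), d) e := by
      intro e he
      have h3 := seg_hp_rv hy hF hlt he
      rw [hn, ← Zk_rv hy hc]
      show xor (U' e) _ = xor (U' e) _
      rw [h3]
    constructor
    · rintro (h | h)
      · right; intro e he; rw [← e1 e he]; exact h e he
      · left; intro e he; rw [← e2 e he]; exact h e he
    · rintro (h | h)
      · right; intro e he; rw [e2 e he]; exact h e he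
      · left; intro e he; rw [e1 e he]; exact h e he

theorem HF_ge [IsProbabilityMeasure lam] (h : HC lam Cn Q) :
    ∃ c : ENNReal, c ≠ 0 ∧ ∀ F : Finset Ed, c ≤ nuM Q (HF lam Cn F) := by
  obtain ⟨c, hc, hc1, hle⟩ := ex_le h
  obtain ⟨c', hc', hpos⟩ := h.pos
  refine ⟨c * c', mul_ne_zero hc hc'.ne', fun F => ?_⟩
  refine ENNReal.le_of_forall_pos_le_add fun ε hε _ => ?_
  have hδ : (0 : ℝ) < (ε : ℝ) / 2 := by positivity
  -- far wall edges
  have hfar := (ENNReal.tendsto_nhds_zero.1 (tendsto_Far h.isW F)) (ENNReal.ofReal ((ε : ℝ) / 2))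
    (ENNReal.ofReal_pos.2 hδ)
  obtain ⟨N, hN⟩ := hfar.exists
  obtain ⟨G, hG⟩ := far_SF (lam := lam) (Cn := Cn) F hδ
  obtain ⟨N', hNN', hGN⟩ : ∃ N', N ≤ N' ∧ G ⊆ box N' := by
    obtain ⟨M, hM⟩ := (G.finite_toSet.image fun v : Vx => |v.1| + |v.2|).bddAbove
    refine ⟨max N M.toNat, le_max_left _ _, fun v hv => ?_⟩
    have h1 : |v.1| + |v.2| ≤ M := hM ⟨v, hv, rfl⟩
    rw [mem_bx]
    have h2 : |v.1| ≤ M := by linarith [abs_nonneg v.2]
    have h3 : |v.2| ≤ M := by linarith [abs_nonneg v.1]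
    rw [abs_le] at h2 h3
    push_cast
    have h4 : M ≤ (M.toNat : ℤ) := Int.self_le_toNat M
    have h5 : (M.toNat : ℤ) ≤ max (N : ℤ) (M.toNat : ℤ) := le_max_right _ _
    omega
  obtain ⟨v, hv, hcv⟩ := hpos N'
  have hvG : v ∉ G := fun hh => hv (hGN hh)
  have hvN : v ∉ box N := by
    intro hh
    apply hv
    rw [mem_bx] at hh ⊢
    have : (N : ℤ) ≤ N' := by exact_mod_cast hNN'
    omega
  have hv0 : (0 : Vx) ≠ v := by
    rintro rfl
    apply hvN
    rw [mem_bx]
    simp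
  set E : Set WT := {b | OnC Cn b 0 ∧ OnC Cn b v ∧ OnC Cn (tB ({0} ∆ {v}) b) 0 ∧
      OnC Cn (tB ({0} ∆ {v}) b) v} with hE
  set Bad : Set WT := {b | ∃ A ∈ F.powerset,
      ¬ (tB {v} b ∈ SF lam Cn F A ↔ b ∈ SF lam Cn F A)} with hBad
  have hBadm : MeasurableSet Bad := by
    refine mset ?_
    refine Measurable.exists fun A => Measurable.and measurable_const (Measurable.not ?_)
    exact Measurable.iff (mprop ((measurable_tB {v}) (measurableSet_SF F A)))
      (mprop (measurableSet_SF F A))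
  set E2 : Set WT := {b | ∃ U ∈ Cn b, ∃ U' ∈ Cn b, U ≠ U' ∧ (b.1, U, U') ∈ DB (Far F N)} with hE2
  set E3 : Set WT := {b | ∃ U ∈ Cn b, ∃ U' ∈ Cn b, U ≠ U' ∧ (b.1, U, U') ∈ DB (HF lam Cn F)}
    with hE3
  have hmp := mp_tB lam ({0} ∆ {v})
  have hsub : PB lam E ≤ PB lam (t0 ⁻¹' Bad ∪ E2 ∪ E3) := by
    apply measure_mono_ae
    filter_upwards [h.two, hmp.quasiMeasurePreserving.ae h.two, ae_all' h (ae_GYp h.isW),
      ae_all' h h.one, h.ex 0 v hv0,
      hmp.quasiMeasurePreserving.ae (ae_all_iff.2 fun A => ae_SF h F A)]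
      with b a1 a2 a3 a4 a5 a6 hb
    by_contra hcon
    have hcon' : ¬ (b ∈ t0 ⁻¹' Bad ∪ E2 ∪ E3) := hcon
    rw [Set.mem_union, Set.mem_union, not_or, not_or] at hcon'
    obtain ⟨⟨c1, c2⟩, c3⟩ := hcon'
    obtain ⟨b1, b2, b3, b4⟩ := hb
    obtain ⟨U, hU, U', hU', d, hd⟩ := id b1
    have hne : U ≠ U' := by
      rintro rfl
      rw [bx_self] at hd
      exact absurd hd (by simp)
    have hCn := pair_eq a1.2.2.1 hU hU' hne
    have hGY := a3 U hU U' hU' hne d hd
    have hone := a4 U hU U' hU' hne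
    have hCW : CW ((b.1, U, U'), d) := fun x hx => hone.2.2 0 x ⟨d, hd⟩ hx
    have hvW : OnW (bx U U') v := by
      obtain ⟨V, hV, V', hV', d', hd'⟩ := b2
      rw [hCn] at hV hV'
      rcases hV with rfl | hV
      · rcases hV' with rfl | hV'
        · rw [bx_self] at hd'
          exact absurd hd' (by simp)
        · rw [Set.mem_singleton_iff] at hV'
          subst hV'
          exact ⟨d', hd'⟩
      · rw [Set.mem_singleton_iff] at hV
        subst hV
        rcases hV' with rfl | hV'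
        · rw [bx_comm] at hd'
          exact ⟨d', hd'⟩
        · rw [Set.mem_singleton_iff] at hV'
          subst hV'
          rw [bx_self] at hd'
          exact absurd hd' (by simp)
    obtain ⟨X, hX, hXp⟩ := hCW v hvW
    have hX' : ∀ e ∈ X, bx U U' e = true := hX
    have hX2 : ∀ e ∈ X, bx U' U e = true := fun e he => by rw [bx_comm]; exact hX e he
    have m1 := a5 b1 b2 b3 b4 U hU U' hU' hne X hX' hXp
    have m2 := a5 b1 b2 b3 b4 U' hU' U hU hne.symm X hX2 hXp
    by_cases hFar : ((b.1, U, U'), d) ∈ Far F N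
    · exact c2 ⟨U, hU, U', hU', hne, d, hd, hFar⟩
    · apply c3
      refine ⟨U, hU, U', hU', hne, d, hd, ⟨hGY, hCW⟩, fun A hA => ?_⟩
      have hbw : bw ((b.1, U, U') : XX) = b := bw_eq (a1.2.2.2 hU) U'
      show t0 (bw (b.1, U, U')) ∈ SF lam Cn F A ↔ _
      rw [hbw]
      have c4 : tB {v} (t0 b) ∈ SF lam Cn F A ↔ t0 b ∈ SF lam Cn F A := by
        by_contra hc4
        exact c1 ⟨A, hA, hc4⟩
      rw [← c4]
      have c5 : tB {v} (t0 b) = tB ({0} ∆ {v}) b := tB_tB _ _ _
      rw [c5, a6 A]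
      exact key_pt a2.2.2.1 hGY hCW hvN hFar hne hX' hXp m1 m2 A
  have hb1 : PB lam (t0 ⁻¹' Bad) ≤ ENNReal.ofReal ((ε : ℝ) / 2) := by
    have : PB lam (t0 ⁻¹' Bad) = PB lam Bad :=
      (mp_tB lam {0}).measure_preimage hBadm.nullMeasurableSet
    rw [this]
    exact hG v hvG
  have hb2 : c * PB lam E2 ≤ ENNReal.ofReal ((ε : ℝ) / 2) :=
    (hle _ (measurableSet_DB (measurableSet_Far F N))).trans
      ((Q_DB_le (measurableSet_Far F N)).trans hN)
  have hb3 : c * PB lam E3 ≤ nuM Q (HF lam Cn F) :=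
    (hle _ (measurableSet_DB (measurableSet_HF F))).trans (Q_DB_le (measurableSet_HF F))
  have hsum : ENNReal.ofReal ((ε : ℝ) / 2) + ENNReal.ofReal ((ε : ℝ) / 2) = (ε : ENNReal) := by
    rw [← ENNReal.ofReal_add hδ.le hδ.le, add_halves, ENNReal.ofReal_coe_nnreal]
  calc c * c' ≤ c * PB lam E := mul_le_mul_right hcv c
    _ ≤ c * (PB lam (t0 ⁻¹' Bad) + PB lam E2 + PB lam E3) := by
        refine mul_le_mul_right (hsub.trans ?_) c
        exact (measure_union_le _ _).trans (add_le_add (measure_union_le _ _) le_rfl)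
    _ = c * PB lam (t0 ⁻¹' Bad) + c * PB lam E2 + c * PB lam E3 := by ring
    _ ≤ ENNReal.ofReal ((ε : ℝ) / 2) + ENNReal.ofReal ((ε : ℝ) / 2) + nuM Q (HF lam Cn F) := by
        refine add_le_add (add_le_add ?_ hb2) hb3
        calc c * PB lam (t0 ⁻¹' Bad) ≤ 1 * ENNReal.ofReal ((ε : ℝ) / 2) := mul_le_mul' hc1 hb1
          _ = _ := one_mul _
    _ = nuM Q (HF lam Cn F) + ε := by rw [hsum, add_comm]

/-! ### admissible points -/

theorem ebox_exh (e : Ed) : ∀ᶠ n in atTop, e ∈ ebox n := by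
  obtain ⟨⟨a, b⟩, c⟩ := e
  filter_upwards [eventually_ge_atTop (a.natAbs + b.natAbs + 1)] with n hn
  unfold ebox
  rw [Finset.mem_filter, Finset.mem_product]
  refine ⟨⟨?_, Finset.mem_univ _⟩, ?_⟩
  · rw [mem_bx]
    simp only
    omega
  · rw [mem_bx]
    cases c
    · simp only [db, Bool.false_eq_true, if_false]
      omega
    · simp only [db, if_true]
      omega

theorem mem_of_frequently {S : Set (Ed → Bool)} (hS : S.Finite) {Z : Ed → Bool}
    (h : ∃ᶠ n in atTop, ∃ V ∈ S, ∀ e ∈ ebox n, V e = Z e) : Z ∈ S := by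
  by_contra hZ
  apply h
  have h1 : ∀ V ∈ S, ∀ᶠ n in atTop, ¬ ∀ e ∈ ebox n, V e = Z e := by
    intro V hV
    have hne : V ≠ Z := fun hh => hZ (hh ▸ hV)
    obtain ⟨e, he⟩ := Function.ne_iff.1 hne
    filter_upwards [ebox_exh e] with n hn hc
    exact he (hc e hn)
  have h2 := (Filter.eventually_all_finite hS).2 h1
  filter_upwards [h2] with n hn
  rintro ⟨V, hV, hc⟩
  exact hn V hV hc

theorem AC_pos [IsProbabilityMeasure lam] (h : HC lam Cn Q) : nuM Q (AC Cn) ≠ 0 := by
  intro h0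
  have hfin : IsFiniteMeasure (nuM Q) := ⟨h.isW.nu_lt⟩
  obtain ⟨c, hc, hge⟩ := HF_ge h
  have hae : ∀ᵐ y ∂(nuM Q), ∀ᶠ n : ℕ in atTop, y ∈ HF lam Cn (ebox n) ↔ y ∈ (∅ : Set YY) := by
    have hmp := mp_tB lam {0}
    have hb1 := ae_bw h (hmp.quasiMeasurePreserving.ae h.two)
    have hb2 := ae_bw h (hmp.quasiMeasurePreserving.ae
      (ae_all_iff.2 fun n : ℕ => ae_all_iff.2 fun A => ae_SF h (ebox n) A))
    have hA : ∀ᵐ y ∂(nuM Q), y ∉ AC Cn := by
      rw [ae_iff]
      simpa using h0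
    filter_upwards [nu_ae_of hb1, nu_ae_of hb2, nu_ae_of (ae_mem h), hA] with y a1 a2 a3 a4
    by_contra hcon
    have hf : ∃ᶠ n : ℕ in atTop, y ∈ HF lam Cn (ebox n) := by
      intro hev
      apply hcon
      filter_upwards [hev] with n hn
      exact ⟨fun hh => (hn hh).elim, fun hh => hh.elim⟩
    apply a4
    have hfinS : (Cn (t0 (bw y.1))).Finite := finite_two a1.2.2.1
    obtain ⟨n0, hn0⟩ := hf.exists
    -- patterns as finite sets
    have key : ∀ (Z : Ed → Bool), (∀ n, y ∈ HF lam Cn (ebox n) →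
        ∃ V ∈ Cn (t0 (bw y.1)), ∀ e ∈ ebox n, V e = Z e) → Z ∈ Cn (t0 (bw y.1)) := by
      intro Z hZ
      exact mem_of_frequently hfinS (hf.mono fun n hn => hZ n hn)
    have hpat : ∀ (Z : Ed → Bool) (n : ℕ), ∀ e ∈ ebox n,
        ind ((ebox n).filter fun e => Z e = true) e = Z e := by
      intro Z n e he
      unfold ind
      rw [Bool.eq_iff_iff, decide_eq_true_iff, Finset.mem_filter]
      exact ⟨fun hh => hh.2, fun hh => ⟨he, hh⟩⟩
    refine ⟨hn0.1, a3, key _ fun n hn => ?_, key _ fun n hn => ?_⟩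
    · have h1 := (hn.2 ((ebox n).filter fun e => Zj y e = true)
        (Finset.mem_powerset.2 (Finset.filter_subset _ _))).2
        (Or.inl fun e he => (hpat (Zj y) n e he).symm)
      obtain ⟨V, hV, hVe⟩ := (a2 n _).1 h1
      exact ⟨V, hV, fun e he => by rw [hVe e he, hpat (Zj y) n e he]⟩
    · have h1 := (hn.2 ((ebox n).filter fun e => Zk y e = true)
        (Finset.mem_powerset.2 (Finset.filter_subset _ _))).2
        (Or.inr fun e he => (hpat (Zk y) n e he).symm)
      obtain ⟨V, hV, hVe⟩ := (a2 n _).1 h1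
      exact ⟨V, hV, fun e he => by rw [hVe e he, hpat (Zk y) n e he]⟩
  have ht := tendsto_measure_of_ae_tendsto_indicator_of_isFiniteMeasure atTop
    (A := (∅ : Set YY)) (As := fun n : ℕ => HF lam Cn (ebox n)) MeasurableSet.empty
    (fun n => measurableSet_HF _) hae
  rw [measure_empty] at ht
  have h1 : c ≤ 0 := ge_of_tendsto ht (Eventually.of_forall fun n => hge (ebox n))
  exact hc (le_antisymm h1 bot_le)

end Pool.Agent.Helper83.MMS
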