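import Pool.Agent.Helper83.MM.Base
import Pool.Agent.Helper66.TJ.Loc

set_option autoImplicit false

/-!
# Canonical pairs: the reflection
-/

open MeasureTheory ProbabilityTheory Filter Topology
open scoped symmDiff

namespace Pool.Agent.Helper83.MMS

open Pool.Agent.Helper60.TJ Pool.Agent.Helper61.MM

variable {lam : Measure ℝ} {Cn : WT → Set (Ed → Bool)} {Q : Measure XX}

/-- the toggle at the plaquette `0` -/
def t0 (b : WT) : WT := tB {0} b

theorem t0_t0 (b : WT) : t0 (t0 b) = b := tB_self _ _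

/-- admissible points -/
def AC (Cn : WT → Set (Ed → Bool)) : Set YY :=
  {y | (GY y ∧ CW y) ∧ (y.1.2.1 ∈ Cn (bw y.1) ∧ y.1.2.2 ∈ Cn (bw y.1)) ∧
    (Zj y ∈ Cn (t0 (bw y.1)) ∧ Zk y ∈ Cn (t0 (bw y.1)))}

/-- the toggled point -/
noncomputable def tog (y : YY) : YY := ((y.1.1, Zj y, Zk y), y.2)

open Classical in
/-- the reflection -/
noncomputable def RC (Cn : WT → Set (Ed → Bool)) (y : YY) : YY := if y ∈ AC Cn then tog y else y

theorem RC_of_mem {y : YY} (h : y ∈ AC Cn) : RC Cn y = tog y := if_pos h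

theorem RC_of_notMem {y : YY} (h : y ∉ AC Cn) : RC Cn y = y := if_neg h

theorem wl_tog (y : YY) : wl (tog y).1 = wl y.1 := bx_Zj_Zk y

theorem hp_tog (y : YY) : hp (tog y) = hp y := hp_congr (wl_tog y) rfl

theorem GY_tog (y : YY) : GY (tog y) ↔ GY y := GY_congr (wl_tog y) rfl

theorem CW_tog (y : YY) : CW (tog y) ↔ CW y := CW_congr (wl_tog y)

theorem Zj_tog (y : YY) : Zj (tog y) = y.1.2.1 := by
  unfold Zj
  rw [hp_tog]
  exact bx_cancel _ _

theorem Zk_tog (y : YY) : Zk (tog y) = y.1.2.2 := by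
  unfold Zk
  rw [hp_tog]
  exact bx_cancel _ _

theorem tog_tog (y : YY) : tog (tog y) = y := by
  have h : tog (tog y) = (((tog y).1.1, Zj (tog y), Zk (tog y)), (tog y).2) := rfl
  rw [h, Zj_tog, Zk_tog]
  rfl

theorem bw_tog {y : YY} (h : GY y) : bw (tog y).1 = t0 (bw y.1) := by
  refine Prod.ext rfl ?_
  show par (Zj y) = vx (par y.1.2.1) (indV {0})
  rw [indV_singleton]
  unfold Zj
  funext v
  rw [par_bx, par_hp h]
  rfl

theorem tog_mem {y : YY} (h : y ∈ AC Cn) : tog y ∈ AC Cn := by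
  obtain ⟨⟨h1, h2⟩, ⟨h3, h4⟩, h5, h6⟩ := h
  refine ⟨⟨(GY_tog y).2 h1, (CW_tog y).2 h2⟩, ⟨?_, ?_⟩, ?_, ?_⟩
  · rw [bw_tog h1]; exact h5
  · rw [bw_tog h1]; exact h6
  · rw [bw_tog h1, t0_t0, Zj_tog]; exact h3
  · rw [bw_tog h1, t0_t0, Zk_tog]; exact h4

/-! ### measurability -/

private theorem mset {α : Type*} [MeasurableSpace α] {p : α → Prop} (h : Measurable p) :
    MeasurableSet {a | p a} := measurableSet_setOfPred.2 h

private theorem mprop {α : Type*} [MeasurableSpace α] {p : α → Prop} (h : MeasurableSet {a | p a}) :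
    Measurable p := measurableSet_setOfPred.1 h

theorem measurableSet_CW : MeasurableSet {y : YY | CW y} := by
  refine mset ?_
  unfold CW
  refine Measurable.forall fun v => Measurable.imp ?_ ?_
  · exact mprop ((measurable_wl.comp measurable_fst) (measurableSet_OnW v))
  · exact mprop ((measurable_wl.comp measurable_fst) (measurableSet_Cn 0 v))

theorem measurable_bw1 : Measurable fun y : YY => bw y.1 := measurable_bw.comp measurable_fst

theorem measurable_tB (S : Finset Vx) : Measurable (tB S) :=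
  measurable_fst.prodMk (measurable_pi_lambda _ fun v =>
    (measurable_of_countable fun b : Bool => xor b (indV S v)).comp
      ((measurable_pi_apply v).comp measurable_snd))

theorem measurable_t0 : Measurable t0 := measurable_tB {0}

theorem measurableSet_AC (h : HC lam Cn Q) : MeasurableSet (AC Cn) := by
  refine (measurableSet_GY.inter measurableSet_CW).inter (MeasurableSet.inter ?_ ?_)
  · exact (measurable_fst (measurableSet_mem1 h)).inter (measurable_fst (measurableSet_mem2 h))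
  · exact (((measurable_t0.comp measurable_bw1).prodMk measurable_Zj) h.meas).inter
      (((measurable_t0.comp measurable_bw1).prodMk measurable_Zk) h.meas)

theorem measurable_tog : Measurable tog :=
  ((measurable_fst.comp measurable_fst).prodMk
    (measurable_Zj.prodMk measurable_Zk)).prodMk measurable_snd

theorem measurable_RC (h : HC lam Cn Q) : Measurable (RC Cn) := by
  unfold RC
  exact Measurable.ite (measurableSet_AC h) measurable_tog measurable_id

/-! ### invariance of the measure -/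

theorem slice {d : Dir} {B : Set YY} (hB : MeasurableSet B) :
    MeasurableSet {p : XX | wl p (edg 0 d) = true ∧ (p, d) ∈ B} :=
  (measurableSet_eq_fun ((measurable_coord (edg 0 d)).comp measurable_wl)
    measurable_const).inter ((measurable_id.prodMk measurable_const :
      Measurable fun p : XX => (p, d)) hB)

theorem ne_of_wl {p : XX} {e : Ed} (h : wl p e = true) : p.2.1 ≠ p.2.2 := by
  intro hc
  have h1 : wl p = fun _ => false := by
    show bx p.2.1 p.2.2 = _
    rw [hc, bx_self]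
  rw [h1] at h
  exact absurd h (by simp)

theorem ctC_RC {b : WT} (hb : Cn b ⊆ GS b.1 b.2) (hb' : Cn (t0 b) ⊆ GS (t0 b).1 (t0 b).2)
    (d : Dir) (B : Set YY) :
    ctC Cn {p | wl p (edg 0 d) = true ∧ (p, d) ∈ RC Cn ⁻¹' B ∩ AC Cn} b =
      ctC Cn {p | wl p (edg 0 d) = true ∧ (p, d) ∈ B ∩ AC Cn} (t0 b) := by
  unfold ctC
  congr 1
  refine Nat.cast_inj.2 ?_
  refine Set.ncard_congr (fun q _ => (Zj ((b.1, q.1, q.2), d), Zk ((b.1, q.1, q.2), d))) ?_ ?_ ?_
  · rintro ⟨U, U'⟩ ⟨hU, hU', -, hw, hR, hA⟩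
    have hR' : tog ((b.1, U, U'), d) ∈ B := by
      rw [← RC_of_mem hA]; exact hR
    have hm := tog_mem hA
    have hbw : bw ((b.1, U, U') : XX) = b := bw_eq (hb hU) U'
    have hA5 := hA.2.2
    have e1 : bw (((b.1, U, U'), d) : YY).1 = b := hbw
    rw [e1] at hA5
    have hw' : wl (tog ((b.1, U, U'), d)).1 (edg 0 d) = true := by
      rw [wl_tog]; exact hw
    exact ⟨hA5.1, hA5.2, ne_of_wl hw', hw', hR', hm⟩
  · rintro ⟨U, U'⟩ ⟨V, V'⟩ _ _ hqq
    have h1 : tog ((b.1, U, U'), d) = tog ((b.1, V, V'), d) := by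
      have e1 : Zj ((b.1, U, U'), d) = Zj ((b.1, V, V'), d) := congrArg Prod.fst hqq
      have e2 : Zk ((b.1, U, U'), d) = Zk ((b.1, V, V'), d) := congrArg Prod.snd hqq
      unfold tog
      rw [e1, e2]
    have h2 := congrArg tog h1
    rw [tog_tog, tog_tog] at h2
    exact congrArg (fun y : YY => y.1.2) h2
  · rintro ⟨V, V'⟩ ⟨hV, hV', -, hw, hB, hA⟩
    have hbw : bw (((t0 b).1, V, V') : XX) = t0 b := bw_eq (hb' hV) V'
    set y' : YY := (((t0 b).1, V, V'), d) with hy'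
    have hm := tog_mem hA
    have hT : tog y' = ((b.1, Zj y', Zk y'), d) := rfl
    have hbt : bw (tog y').1 = b := by
      rw [bw_tog hA.1.1]
      have : bw y'.1 = t0 b := hbw
      rw [this, t0_t0]
    have hA3 := hm.2.1
    rw [hbt] at hA3
    rw [hT] at hm hA3
    have hw' : wl (tog y').1 (edg 0 d) = true := by
      rw [wl_tog]; exact hw
    rw [hT] at hw'
    refine ⟨(Zj y', Zk y'), ⟨hA3.1, hA3.2, ne_of_wl hw', hw', ?_, hm⟩, ?_⟩
    · show RC Cn ((b.1, Zj y', Zk y'), d) ∈ B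
      rw [RC_of_mem hm, ← hT, tog_tog]
      exact hB
    · have h1 : Zj (tog y') = V := Zj_tog y'
      have h2 : Zk (tog y') = V' := Zk_tog y'
      rw [hT] at h1 h2
      exact Prod.ext h1 h2

theorem mp_RC [IsProbabilityMeasure lam] (h : HC lam Cn Q) :
    MeasurePreserving (RC Cn) (nuM Q) (nuM Q) := by
  have hmR := measurable_RC h
  have hmA := measurableSet_AC h
  refine ⟨hmR, ?_⟩
  have key : ∀ {B : Set YY}, MeasurableSet B →
      nuM Q (RC Cn ⁻¹' B ∩ AC Cn) = nuM Q (B ∩ AC Cn) := by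
    intro B hB
    have hB1 : MeasurableSet (RC Cn ⁻¹' B ∩ AC Cn) := (hmR hB).inter hmA
    have hB2 : MeasurableSet (B ∩ AC Cn) := hB.inter hmA
    rw [nu_eq _ hB1, nu_eq _ hB2]
    refine Finset.sum_congr rfl fun d _ => ?_
    obtain ⟨c, hc, -, hcnt⟩ := h.cnt
    rw [hcnt _ (slice hB1), hcnt _ (slice hB2)]
    congr 1
    have hmp := mp_tB lam {0}
    have h1 := lintegral_map' (μ := PB lam) (g := t0)
      (f := ctC Cn {p | wl p (edg 0 d) = true ∧ (p, d) ∈ B ∩ AC Cn})
      (by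
        have e : Measure.map t0 (PB lam) = PB lam := hmp.map_eq
        rw [e]; exact h.cntm _ (slice hB2))
      measurable_t0.aemeasurable
    have e : Measure.map t0 (PB lam) = PB lam := hmp.map_eq
    rw [e] at h1
    rw [h1]
    refine lintegral_congr_ae ?_
    have h2 : ∀ᵐ b ∂(PB lam), Cn b ⊆ GS b.1 b.2 := by
      filter_upwards [h.two] with b hb
      exact hb.2.2.2
    have h3 : ∀ᵐ b ∂(PB lam), Cn (t0 b) ⊆ GS (t0 b).1 (t0 b).2 :=
      hmp.quasiMeasurePreserving.ae h2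
    filter_upwards [h2, h3] with b hb hb'
    exact ctC_RC hb hb' d B
  ext B hB
  rw [Measure.map_apply hmR hB]
  have h1 : nuM Q (RC Cn ⁻¹' B) = nuM Q (RC Cn ⁻¹' B ∩ AC Cn) + nuM Q (RC Cn ⁻¹' B \ AC Cn) :=
    (measure_inter_add_sdiff _ hmA).symm
  have h2 : nuM Q B = nuM Q (B ∩ AC Cn) + nuM Q (B \ AC Cn) :=
    (measure_inter_add_sdiff _ hmA).symm
  have h3 : RC Cn ⁻¹' B \ AC Cn = B \ AC Cn := by
    ext y
    simp only [Set.mem_sdiff, Set.mem_preimage]
    constructor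
    · rintro ⟨h4, h5⟩
      rw [RC_of_notMem h5] at h4
      exact ⟨h4, h5⟩
    · rintro ⟨h4, h5⟩
      exact ⟨by rw [RC_of_notMem h5]; exact h4, h5⟩
  rw [h1, h2, key hB, h3]

/-! ### symmetries of the admissible set -/

theorem par_eq {y : YY} (h : GY y) : par y.1.2.2 = par y.1.2.1 := by
  have h1 : ∀ v, par (wl y.1) v = false := h.1.1
  funext v
  have h2 := h1 v
  unfold wl at h2
  rw [par_bx] at h2
  revert h2
  cases par y.1.2.1 v <;> cases par y.1.2.2 v <;> simp

theorem bw_sw {y : YY} (h : GY y) : bw (sw y).1 = bw y.1 := by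
  refine Prod.ext rfl ?_
  exact par_eq h

theorem Zj_sw (y : YY) : Zj (sw y) = Zk y := by
  have h1 : hp (sw y) = hp y := hp_congr (wl_sw y) rfl
  unfold Zj Zk; rw [h1]; rfl

theorem Zk_sw (y : YY) : Zk (sw y) = Zj y := by
  have h1 : hp (sw y) = hp y := hp_congr (wl_sw y) rfl
  unfold Zj Zk; rw [h1]; rfl

theorem sw_mem {y : YY} (h : y ∈ AC Cn) : sw y ∈ AC Cn := by
  obtain ⟨⟨h1, h2⟩, ⟨h3, h4⟩, h5, h6⟩ := h
  refine ⟨⟨(GY_congr (wl_sw y) rfl).2 h1, (CW_congr (wl_sw y)).2 h2⟩, ⟨?_, ?_⟩, ?_, ?_⟩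
  · rw [bw_sw h1]; exact h4
  · rw [bw_sw h1]; exact h3
  · rw [bw_sw h1, Zj_sw]; exact h6
  · rw [bw_sw h1, Zk_sw]; exact h5

theorem sw_AC (y : YY) : sw y ∈ AC Cn ↔ y ∈ AC Cn :=
  ⟨fun h => by have := sw_mem h; exact this, sw_mem⟩

theorem Zj_rv {y : YY} (h : GY y) (hc : CW y) : Zj (rv y) = Zk y := by
  funext e
  have h3 := congrFun (bx_hp h hc) e
  simp only [Zj, Zk, bx, wl, fst_rv] at h3 ⊢
  generalize y.1.2.1 e = a at *
  generalize y.1.2.2 e = b at *
  generalize hp y e = c at *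
  generalize hp (rv y) e = d at *
  revert a b c d
  decide

theorem Zk_rv {y : YY} (h : GY y) (hc : CW y) : Zk (rv y) = Zj y := by
  funext e
  have h3 := congrFun (bx_hp h hc) e
  simp only [Zj, Zk, bx, wl, fst_rv] at h3 ⊢
  generalize y.1.2.1 e = a at *
  generalize y.1.2.2 e = b at *
  generalize hp y e = c at *
  generalize hp (rv y) e = d at *
  revert a b c d
  decide

theorem rv_AC {y : YY} (h : GY y) : rv y ∈ AC Cn ↔ y ∈ AC Cn := by
  constructor
  · rintro ⟨⟨h1, h2⟩, h3, h5, h6⟩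
    have hc : CW y := h2
    rw [Zj_rv h hc] at h5
    rw [Zk_rv h hc] at h6
    exact ⟨⟨h, hc⟩, h3, h6, h5⟩
  · rintro ⟨⟨h1, hc⟩, h3, h5, h6⟩
    refine ⟨⟨h.rv, hc⟩, h3, ?_, ?_⟩
    · rw [Zj_rv h hc]; exact h6
    · rw [Zk_rv h hc]; exact h5

/-! ### the walk of the toggled point -/

theorem xv_tog_nonneg {y : YY} (h : GY y) (k : ℕ) : xv (Tz (k : ℤ) (tog y)) = - xv (Tz (k : ℤ) y) := by
  rw [xv_Tz ((GY_tog y).2 h), xv_Tz h, wedgez_congr (wl_tog y) rfl]
  have h2 : (tog y).1.2.1 (wedgez y k) = !(y.1.2.1 (wedgez y k)) := by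
    show bx y.1.2.1 (hp y) (wedgez y k) = _
    unfold bx
    rw [hp_wedgez h]
    simp
  rw [h2, sg_not]
  show wt y.1.1 _ * _ = _
  ring

theorem xv_tog_neg {y : YY} (h : GY y) {k : ℤ} (hk : k < 0) : xv (Tz k (tog y)) = xv (Tz k y) := by
  rw [xv_Tz ((GY_tog y).2 h), xv_Tz h, wedgez_congr (wl_tog y) rfl]
  have h2 : (tog y).1.2.1 (wedgez y k) = y.1.2.1 (wedgez y k) := by
    show bx y.1.2.1 (hp y) (wedgez y k) = _
    unfold bx
    rw [hp_wedgez h]
    have : ¬ 0 ≤ k := by omega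
    simp [this]
  rw [h2]
  rfl

end Pool.Agent.Helper83.MMS
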